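import Pool.Agent.H50.A5.Real

/-!
# Affine groups and their actions
-/

open Equiv Equiv.Perm
open Pool.Agent.H7.Artin Pool.Agent.H58.S2 Pool.Agent.H72.PM Pool.Agent.H72.E17
open Pool.Agent.H72.A5

namespace Pool.Agent.H50.A5

set_option linter.unusedSectionVars false

/-- The semidirect product of `V` with `U`. -/
@[ext]
structure Af {V U : Type} [AddCommGroup V] [Group U] (χ : U →* AddMonoid.End V) where
  /-- the translation -/
  v : V
  /-- the linear part -/
  u : U

namespace Af

section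

variable {V U : Type} [AddCommGroup V] [Group U] {χ : U →* AddMonoid.End V}

instance : Mul (Af χ) := ⟨fun a b => ⟨a.v + χ a.u b.v, a.u * b.u⟩⟩

instance : One (Af χ) := ⟨⟨0, 1⟩⟩

instance : Inv (Af χ) := ⟨fun a => ⟨-(χ a.u⁻¹ a.v), a.u⁻¹⟩⟩

theorem mul_v (a b : Af χ) : (a * b).v = a.v + χ a.u b.v := rfl

theorem mul_u (a b : Af χ) : (a * b).u = a.u * b.u := rfl

theorem one_v : (1 : Af χ).v = 0 := rfl

theorem one_u : (1 : Af χ).u = 1 := rfl

theorem inv_v (a : Af χ) : (a⁻¹).v = -(χ a.u⁻¹ a.v) := rfl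

theorem inv_u (a : Af χ) : (a⁻¹).u = a.u⁻¹ := rfl

theorem chi_one (x : V) : χ 1 x = x := by
  rw [map_one]
  rfl

theorem chi_mul (a b : U) (x : V) : χ (a * b) x = χ a (χ b x) := by
  rw [map_mul]
  rfl

instance : Group (Af χ) :=
  Group.ofLeftAxioms
    (fun a b c => by
      ext
      · rw [mul_v, mul_v, mul_v, mul_v, mul_u, chi_mul, map_add]
        abel
      · rw [mul_u, mul_u, mul_u, mul_u, mul_assoc])
    (fun a => by
      ext
      · rw [mul_v, one_v, one_u, chi_one, zero_add]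
      · rw [mul_u, one_u, one_mul])
    (fun a => by
      ext
      · rw [mul_v, inv_v, inv_u, one_v, neg_add_cancel]
      · rw [mul_u, inv_u, inv_mul_cancel, one_u])

/-- the elements -/
def equivProd : Af χ ≃ V × U where
  toFun a := (a.v, a.u)
  invFun a := ⟨a.1, a.2⟩
  left_inv _ := rfl
  right_inv _ := rfl

instance [Fintype V] [Fintype U] : Fintype (Af χ) := Fintype.ofEquiv _ equivProd.symm

theorem card_eq [Fintype V] [Fintype U] : Nat.card (Af χ) = Fintype.card V * Fintype.card U := by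
  rw [Nat.card_congr (equivProd (χ := χ)), Nat.card_prod, Nat.card_eq_fintype_card,
    Nat.card_eq_fintype_card]

/-- the linear part -/
def right (χ : U →* AddMonoid.End V) : Af χ →* U where
  toFun := Af.u
  map_one' := rfl
  map_mul' _ _ := rfl

theorem mk_pow_one (v : V) (k : ℕ) : (⟨v, 1⟩ : Af χ) ^ k = ⟨k • v, 1⟩ := by
  induction k with
  | zero => rw [pow_zero, zero_smul]; rfl
  | succ k ih =>
    rw [pow_succ, ih]
    ext
    · rw [mul_v, chi_one, add_smul, one_smul]
    · rw [mul_u, one_mul]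

theorem mk_pow_zero (u : U) (k : ℕ) : (⟨0, u⟩ : Af χ) ^ k = ⟨0, u ^ k⟩ := by
  induction k with
  | zero => rw [pow_zero, pow_zero]; rfl
  | succ k ih =>
    rw [pow_succ, ih]
    ext
    · rw [mul_v, map_zero, add_zero]
    · rw [mul_u, pow_succ]

theorem mk_mul (v : V) (u : U) : (⟨v, u⟩ : Af χ) = ⟨v, 1⟩ * ⟨0, u⟩ := by
  ext
  · rw [mul_v, map_zero, add_zero]
  · rw [mul_u, one_mul]

/-- elements with the same linear part without fixed vectors are conjugate -/
theorem exists_conj [Finite V] {u : U} (hu : ∀ x, χ u x = x → x = 0) (v : V) :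
    ∃ g : Af χ, g * ⟨0, u⟩ * g⁻¹ = ⟨v, u⟩ := by
  have hinj : Function.Injective (fun x : V => x - χ u x) := by
    intro x y hxy
    have h1 : x - χ u x = y - χ u y := hxy
    have h2 : χ u (x - y) = x - y := by
      rw [map_sub]
      have h3 : χ u x = x - (y - χ u y) := by rw [← h1]; abel
      rw [h3]
      abel
    exact sub_eq_zero.1 (hu _ h2)
  obtain ⟨w, hw⟩ := (Finite.injective_iff_surjective.1 hinj) v
  refine ⟨⟨w, 1⟩, ?_⟩
  rw [mul_inv_eq_iff_eq_mul]
  ext
  · rw [mul_v, mul_v, map_zero, add_zero, ← hw]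
    change w = w - χ u w + χ u w
    abel
  · rw [mul_u, mul_u, one_mul, mul_one]

end

section

variable {V U V' : Type} [AddCommGroup V] [Group U] {χ : U →* AddMonoid.End V}
  [AddCommGroup V'] [Fintype V'] [DecidableEq V'] (χ' : U →* AddMonoid.End V') (p : V →+ V')
  (hp : ∀ u v, p (χ u v) = χ' u (p v))

/-- the affine action on a quotient of `V` -/
def act : Af χ →* Perm V' :=
  let _ : MulAction (Af χ) V' :=
    { smul := fun b x => p b.v + χ' b.u x
      one_smul := fun x => by
        change p 0 + χ' 1 x = x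
        rw [map_zero, zero_add, chi_one]
      mul_smul := fun a b x => by
        change p (a.v + χ a.u b.v) + χ' (a.u * b.u) x = p a.v + χ' a.u (p b.v + χ' b.u x)
        rw [map_add, hp, chi_mul, map_add]
        abel }
  MulAction.toPermHom (Af χ) V'

theorem act_apply (b : Af χ) (x : V') : act χ' p hp b x = p b.v + χ' b.u x := rfl

theorem fixn_act_tr (v : V) :
    fixn (act χ' p hp ⟨v, 1⟩) = if p v = 0 then Fintype.card V' else 0 := by
  unfold fixn
  have h1 : ∀ x : V', act χ' p hp ⟨v, 1⟩ x = x ↔ p v = 0 := by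
    intro x
    rw [act_apply]
    change p v + χ' 1 x = x ↔ _
    rw [chi_one]
    simp
  simp only [h1]
  split_ifs with h
  · rw [Finset.filter_true_of_mem (fun _ _ => h), Finset.card_univ]
  · rw [Finset.filter_false_of_mem (fun _ _ => h), Finset.card_empty]

theorem fixn_act_free {u : U} (hu : ∀ x, χ' u x = x → x = 0) :
    fixn (act χ' p hp ⟨0, u⟩) = 1 := by
  unfold fixn
  rw [Finset.card_eq_one]
  refine ⟨0, ?_⟩
  ext x
  simp only [Finset.mem_filter, Finset.mem_univ, true_and, Finset.mem_singleton]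
  rw [act_apply]
  change p 0 + χ' u x = x ↔ _
  rw [map_zero, zero_add]
  exact ⟨hu x, fun h => by rw [h, map_zero]⟩

theorem fixn_act_triv {u : U} (hu : ∀ x, χ' u x = x) :
    fixn (act χ' p hp ⟨0, u⟩) = Fintype.card V' := by
  unfold fixn
  rw [Finset.filter_true_of_mem, Finset.card_univ]
  intro x _
  rw [act_apply]
  change p 0 + χ' u x = x
  rw [map_zero, zero_add, hu]

end

section

variable {V U Q : Type} [AddCommGroup V] [Group U] {χ : U →* AddMonoid.End V}
  [Group Q] [Fintype Q] [DecidableEq Q] (π : U →* Q)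

/-- the regular action of a quotient of `U` -/
def qact (χ : U →* AddMonoid.End V) : Af χ →* Perm Q :=
  (MulAction.toPermHom Q Q).comp (π.comp (right χ))

theorem fixn_qact (b : Af χ) :
    fixn (qact π χ b) = if π b.u = 1 then Fintype.card Q else 0 := by
  unfold fixn
  have h1 : ∀ x : Q, qact π χ b x = x ↔ π b.u = 1 := by
    intro x
    change π b.u * x = x ↔ _
    exact mul_eq_right
  simp only [h1]
  split_ifs with h
  · rw [Finset.filter_true_of_mem (fun _ _ => h), Finset.card_univ]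
  · rw [Finset.filter_false_of_mem (fun _ _ => h), Finset.card_empty]

end

section

variable {V U : Type} [AddCommGroup V] [Fintype V] [DecidableEq V] [Group U] [Fintype U]
  [DecidableEq U] {χ : U →* AddMonoid.End V}

/-- the sum of a function over the group -/
theorem sum_af (Φ : Af χ → ℂ) (ψ : U →* ℂˣ) (c : U → ℂ) (c2 : ℂ)
    (h1 : ∀ v, v ≠ 0 → Φ ⟨v, 1⟩ = c2) (hu : ∀ v u, u ≠ 1 → Φ ⟨v, u⟩ = c u) :
    ∑ b : Af χ, Φ b * (((ψ.comp (right χ)) b)⁻¹ : ℂˣ) =
      Φ 1 + ((Fintype.card V : ℂ) - 1) * c2 +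
        (Fintype.card V : ℂ) * ∑ u ∈ Finset.univ.erase (1 : U), c u * (((ψ u)⁻¹ : ℂˣ) : ℂ) := by
  have e1 : ∑ b : Af χ, Φ b * (((ψ.comp (right χ)) b)⁻¹ : ℂˣ) =
      ∑ u : U, ∑ v : V, Φ ⟨v, u⟩ * (((ψ u)⁻¹ : ℂˣ) : ℂ) := by
    rw [Finset.sum_comm, ← Fintype.sum_prod_type']
    exact Fintype.sum_equiv equivProd _ _ fun b => rfl
  rw [e1, ← Finset.add_sum_erase _ _ (Finset.mem_univ (1 : U))]
  congr 1
  · rw [← Finset.add_sum_erase _ _ (Finset.mem_univ (0 : V))]
    congr 1
    · rw [map_one, inv_one, Units.val_one, mul_one]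
      rfl
    · rw [Finset.sum_congr rfl (g := fun _ => c2)]
      · rw [Finset.sum_const, Finset.card_erase_of_mem (Finset.mem_univ _), Finset.card_univ,
          nsmul_eq_mul, Nat.cast_sub Fintype.card_pos, Nat.cast_one]
      · intro v hv
        rw [h1 v (Finset.ne_of_mem_erase hv), map_one, inv_one, Units.val_one, mul_one]
  · rw [Finset.mul_sum]
    refine Finset.sum_congr rfl fun u hu' => ?_
    rw [Finset.sum_congr rfl (g := fun _ => c u * (((ψ u)⁻¹ : ℂˣ) : ℂ))]
    · rw [Finset.sum_const, Finset.card_univ, nsmul_eq_mul]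
    · intro v _
      rw [hu v u (Finset.ne_of_mem_erase hu')]

end

end Af

end Pool.Agent.H50.A5
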