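import Pool.Agent.H50.A5.SThree

/-!
# The third identity
-/

open Equiv Equiv.Perm
open Pool.Agent.H7.Artin Pool.Agent.H58.S2 Pool.Agent.H72.PM Pool.Agent.H72.E17
open Pool.Agent.H72.A5

namespace Pool.Agent.H50.A5

set_option linter.unusedSectionVars false

theorem sum_classes {α : Type} [Fintype α] {n : ℕ} (cl : α → Fin n) (w : Fin n → ℂ)
    (m : Fin n → ℕ) (h : ∀ c, (Finset.univ.filter fun x => cl x = c).card = m c) :
    ∑ x, w (cl x) = ∑ c, (m c : ℂ) * w c := by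
  rw [← Finset.sum_fiberwise Finset.univ cl]
  refine Finset.sum_congr rfl fun c _ => ?_
  rw [Finset.sum_congr rfl (g := fun _ => w c), Finset.sum_const, h, nsmul_eq_mul]
  intro x hx
  rw [(Finset.mem_filter.1 hx).2]

theorem fixn_inv {X : Type} [Fintype X] [DecidableEq X] (s : Perm X) : fixn s⁻¹ = fixn s := by
  unfold fixn
  congr 1
  refine Finset.filter_congr fun x _ => ?_
  rw [Perm.inv_eq_iff_eq]
  exact eq_comm

section

variable {G X : Type} [Group G] [Fintype G] [Fintype X] [DecidableEq X]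
  (τ : G →* Perm X) (hτ : Function.Injective τ) (halt : alternatingGroup X ≤ τ.range)

theorem sign_inv {s : Perm X} {z : ℕ} (hs : s ^ 2 = 1) (h : fixn s + 16 * z = Fintype.card X) :
    sign s = 1 := by
  refine sign_unif (m := 2) (N := 8 * z) hs ?_ (by omega) ⟨3 * (4 * z), by ring⟩ (by norm_num)
  intro j hj0 hj
  have : j = 1 := by omega
  rw [this, pow_one]

include hτ halt in
/-- elements of order four -/
theorem class_eq_four {x y : G} (hx : x ^ 4 = 1) (hy : y ^ 4 = 1) (hx1 : x ≠ 1)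
    (h1 : fixn (τ x) = fixn (τ y)) (h2 : fixn (τ (x ^ 2)) = fixn (τ (y ^ 2))) {θ : G → ℂ}
    (hθ : IsClass θ) : θ x = θ y := by
  refine class_eq_of_fixn τ hτ halt (fun k _ _ => ?_)
    (oddCent_two (n := 2) (by norm_num; rw [← map_pow, hx, map_one]) ?_) hθ
  · have key : ∀ w : G, w ^ 4 = 1 → fixn (τ w ^ k) =
        if k % 4 = 0 then Fintype.card X else if k % 4 = 2 then fixn (τ (w ^ 2)) else
          fixn (τ w) := by
      intro w hw
      have h3 : w ^ k = w ^ (k % 4) := pow_eq_pow_mod k hw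
      rw [← map_pow, h3]
      have h4 : k % 4 < 4 := Nat.mod_lt _ (by norm_num)
      generalize k % 4 = r at h4 ⊢
      interval_cases r
      · rw [pow_zero, map_one, fixn_one]
        simp
      · rw [pow_one]
        simp
      · simp
      · have h5 : w ^ 3 = w⁻¹ := by
          rw [eq_inv_iff_mul_eq_one, ← pow_succ]
          exact hw
        rw [h5, map_inv, fixn_inv]
        simp
    rw [key x hx, key y hy, h1, h2]
  · intro h3
    apply hx1
    apply hτ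
    rw [h3, map_one]

include hτ halt in
/-- copies of `2^4 : S_3` -/
theorem exists_B {z k α γ i j : ℕ} (hz : z = k + 2 * α + 3 * γ) (hz1 : 1 ≤ z)
    (hi : j + i = 2 * (k + γ)) (hX : 16 * z + 3 * j + 2 * i ≤ Fintype.card X) :
    ∃ φ : BG →* G, Function.Injective φ ∧
      (∀ x, clB x = 1 ∨ clB x = 3 → (φ (toB x)) ^ 2 = 1 ∧
        fixn (τ (φ (toB x))) + 16 * z = Fintype.card X) ∧
      (∀ x, clB x = 2 → (φ (toB x)) ^ 3 = 1 ∧
        fixn (τ (φ (toB x))) + 3 * (5 * z + γ + j) = Fintype.card X) ∧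
      (∀ x, clB x = 4 → (φ (toB x)) ^ 4 = 1 ∧
        fixn (τ (φ (toB x))) + (16 * z + 4 * (k + γ)) = Fintype.card X ∧
        fixn (τ ((φ (toB x)) ^ 2)) + 16 * z = Fintype.card X) := by
  classical
  have hR := real_B k α γ i j
  have hcases : ∀ x, clB x = 0 ∨ clB x = 1 ∨ clB x = 2 ∨ clB x = 3 ∨ clB x = 4 := by
    intro x
    have := (clB x).2
    omega
  have key : ∀ φ : BG →* Perm X, (∀ b : BG, fixn (φ b) +
      (16 * (k + 2 * α + 3 * γ) + 3 * j + 2 * i) = Fintype.card X +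
        ((fW b.v.1 b.u * fW b.v.2 b.u) * (k + α * f2 b.u + γ * f3 b.u) + j * f3 b.u +
          i * f2 b.u)) →
      (∀ x, clB x = 1 ∨ clB x = 3 → (toB x) ^ 2 = 1 ∧
        fixn (φ (toB x)) + 16 * z = Fintype.card X) ∧
      (∀ x, clB x = 2 → (toB x) ^ 3 = 1 ∧
        fixn (φ (toB x)) + 3 * (5 * z + γ + j) = Fintype.card X) ∧
      (∀ x, clB x = 4 → (toB x) ^ 4 = 1 ∧
        fixn (φ (toB x)) + (16 * z + 4 * (k + γ)) = Fintype.card X ∧
        fixn (φ ((toB x) ^ 2)) + 16 * z = Fintype.card X) := by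
    intro φ hφ
    have h13 : ∀ x, clB x = 1 ∨ clB x = 3 → (toB x) ^ 2 = 1 ∧
        fixn (φ (toB x)) + 16 * z = Fintype.card X := by
      rintro x (hx | hx)
      · obtain ⟨h1, h2, h3, h4, -⟩ := clB_one x hx
        have h5 := hφ (toB x)
        change _ = _ + ((fW x.1.1 x.2 * fW x.1.2 x.2) * (k + α * f2 x.2 + γ * f3 x.2) +
          j * f3 x.2 + i * f2 x.2) at h5
        rw [h1, h2, h3] at h5
        refine ⟨?_, by omega⟩
        rw [sq, ← toB_mul, h4, toB_one]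
      · obtain ⟨h1, h2, h3, h4, -⟩ := clB_three x hx
        have h5 := hφ (toB x)
        change _ = _ + ((fW x.1.1 x.2 * fW x.1.2 x.2) * (k + α * f2 x.2 + γ * f3 x.2) +
          j * f3 x.2 + i * f2 x.2) at h5
        rw [h1, h2, h3] at h5
        refine ⟨?_, by omega⟩
        rw [sq, ← toB_mul, h4, toB_one]
    refine ⟨h13, ?_, ?_⟩
    · intro x hx
      obtain ⟨h1, h2, h3, h4, -⟩ := clB_two x hx
      have h5 := hφ (toB x)
      change _ = _ + ((fW x.1.1 x.2 * fW x.1.2 x.2) * (k + α * f2 x.2 + γ * f3 x.2) +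
        j * f3 x.2 + i * f2 x.2) at h5
      rw [h1, h2, h3] at h5
      refine ⟨?_, by omega⟩
      rw [pow_succ, sq, ← toB_mul, ← toB_mul, h4, toB_one]
    · intro x hx
      obtain ⟨h1, h2, h3, h4, -⟩ := clB_four x hx
      have h5 := hφ (toB x)
      change _ = _ + ((fW x.1.1 x.2 * fW x.1.2 x.2) * (k + α * f2 x.2 + γ * f3 x.2) +
        j * f3 x.2 + i * f2 x.2) at h5
      rw [h1, h2, h3] at h5
      obtain ⟨h6, h7⟩ := h13 _ (Or.inl h4)
      refine ⟨?_, by omega, ?_⟩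
      · have h8 : (toB x) ^ 4 = (toB x * toB x) ^ 2 := by
          rw [← sq, ← pow_mul]
        rw [h8, ← toB_mul, h6]
      · rw [sq, ← toB_mul]
        exact h7
  obtain ⟨φ, hφ⟩ := hR.lift τ hτ halt (by omega) (by
    intro φ hφ
    obtain ⟨h13, h2, h4⟩ := key φ hφ
    have hs : ∀ x, clB x = 1 ∨ clB x = 3 → sign (φ (toB x)) = 1 := by
      intro x hx
      obtain ⟨h5, h6⟩ := h13 x hx
      exact sign_inv (by rw [← map_pow, h5, map_one]) h6
    intro b
    have hb : b = toB (b.v, b.u) := rfl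
    rw [hb]
    rcases hcases (b.v, b.u) with h | h | h | h | h
    · rw [clB_zero _ h, toB_one, map_one, map_one]
    · exact hs _ (Or.inl h)
    · obtain ⟨h5, -⟩ := h2 _ h
      exact sign_odd (m := 3) (by decide) (by rw [← map_pow, h5, map_one])
    · exact hs _ (Or.inr h)
    · obtain ⟨h5, h6, h7⟩ := clB_gen _ h
      rw [h5, toB_mul, map_mul, map_mul, hs _ (Or.inl h6), hs _ (Or.inr h7), one_mul])
  obtain ⟨h13, h2, h4⟩ := key (τ.comp φ) hφ
  refine ⟨φ, ?_, ?_, ?_, ?_⟩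
  · rw [injective_iff_map_eq_one]
    intro b hb
    have hb' : b = toB (b.v, b.u) := rfl
    rw [hb'] at hb ⊢
    rcases hcases (b.v, b.u) with h | h | h | h | h
    · rw [clB_zero _ h, toB_one]
    · exfalso
      have h5 := (h13 _ (Or.inl h)).2
      change fixn (τ (φ _)) + _ = _ at h5
      rw [hb, map_one, fixn_one] at h5
      omega
    · exfalso
      have h5 := (h2 _ h).2
      change fixn (τ (φ _)) + _ = _ at h5
      rw [hb, map_one, fixn_one] at h5
      omega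
    · exfalso
      have h5 := (h13 _ (Or.inr h)).2
      change fixn (τ (φ _)) + _ = _ at h5
      rw [hb, map_one, fixn_one] at h5
      omega
    · exfalso
      have h5 := (h4 _ h).2.1
      change fixn (τ (φ _)) + _ = _ at h5
      rw [hb, map_one, fixn_one] at h5
      omega
  · intro x hx
    obtain ⟨h5, h6⟩ := h13 x hx
    exact ⟨by rw [← map_pow, h5, map_one], h6⟩
  · intro x hx
    obtain ⟨h5, h6⟩ := h2 x hx
    exact ⟨by rw [← map_pow, h5, map_one], h6⟩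
  · intro x hx
    obtain ⟨h5, h6, h7⟩ := h4 x hx
    refine ⟨by rw [← map_pow, h5, map_one], h6, ?_⟩
    rw [← map_pow]
    exact h7

include hτ halt in
/-- copies of `4^2 : 2` -/
theorem exists_D {z ν δ : ℕ} (hz : z = 3 * ν + 2 * δ) (hz1 : 1 ≤ z)
    (hX : 16 * z + 4 * ν ≤ Fintype.card X) :
    ∃ φ : DG →* G, Function.Injective φ ∧
      (∀ x, clD x = 1 ∨ clD x = 2 → (φ (toD x)) ^ 2 = 1 ∧
        fixn (τ (φ (toD x))) + 16 * z = Fintype.card X) ∧
      (∀ x, clD x = 3 → (φ (toD x)) ^ 4 = 1 ∧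
        fixn (τ (φ (toD x))) + (16 * z + 4 * ν) = Fintype.card X ∧
        fixn (τ ((φ (toD x)) ^ 2)) + 16 * z = Fintype.card X) := by
  classical
  have hR := real_D ν δ
  have hcases : ∀ x, clD x = 0 ∨ clD x = 1 ∨ clD x = 2 ∨ clD x = 3 := by
    intro x
    have := (clD x).2
    omega
  have key : ∀ φ : DG →* Perm X, (∀ b : DG, fixn (φ b) + (52 * ν + 32 * δ) =
      Fintype.card X + (ν * FD (b.v, b.u) + δ * FR (b.v, b.u))) →
      (∀ x, clD x = 1 ∨ clD x = 2 → (toD x) ^ 2 = 1 ∧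
        fixn (φ (toD x)) + 16 * z = Fintype.card X) ∧
      (∀ x, clD x = 3 → (toD x) ^ 4 = 1 ∧
        fixn (φ (toD x)) + (16 * z + 4 * ν) = Fintype.card X ∧
        fixn (φ ((toD x) ^ 2)) + 16 * z = Fintype.card X) := by
    intro φ hφ
    have h12 : ∀ x, clD x = 1 ∨ clD x = 2 → (toD x) ^ 2 = 1 ∧
        fixn (φ (toD x)) + 16 * z = Fintype.card X := by
      rintro x (hx | hx)
      · obtain ⟨h1, h2, h4, -⟩ := clD_one x hx
        have h5 := hφ (toD x)
        change _ = _ + (ν * FD x + δ * FR x) at h5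
        rw [h1, h2] at h5
        refine ⟨?_, by omega⟩
        rw [sq, ← toD_mul, h4, toD_one]
      · obtain ⟨h1, h2, h4, -⟩ := clD_two x hx
        have h5 := hφ (toD x)
        change _ = _ + (ν * FD x + δ * FR x) at h5
        rw [h1, h2] at h5
        refine ⟨?_, by omega⟩
        rw [sq, ← toD_mul, h4, toD_one]
    refine ⟨h12, ?_⟩
    intro x hx
    obtain ⟨h1, h2, h4, -⟩ := clD_three x hx
    have h5 := hφ (toD x)
    change _ = _ + (ν * FD x + δ * FR x) at h5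
    rw [h1, h2] at h5
    obtain ⟨h6, h7⟩ := h12 _ (Or.inl h4)
    refine ⟨?_, by omega, ?_⟩
    · have h8 : (toD x) ^ 4 = (toD x * toD x) ^ 2 := by
        rw [← sq, ← pow_mul]
      rw [h8, ← toD_mul, h6]
    · rw [sq, ← toD_mul]
      exact h7
  obtain ⟨φ, hφ⟩ := hR.lift τ hτ halt (by omega) (by
    intro φ hφ
    obtain ⟨h12, h4⟩ := key φ hφ
    have hs : ∀ x, clD x = 1 ∨ clD x = 2 → sign (φ (toD x)) = 1 := by
      intro x hx
      obtain ⟨h5, h6⟩ := h12 x hx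
      exact sign_inv (by rw [← map_pow, h5, map_one]) h6
    intro b
    have hb : b = toD (b.v, b.u) := rfl
    rw [hb]
    rcases hcases (b.v, b.u) with h | h | h | h
    · rw [clD_zero _ h, toD_one, map_one, map_one]
    · exact hs _ (Or.inl h)
    · exact hs _ (Or.inr h)
    · obtain ⟨h5, h6, h7⟩ := clD_gen _ h
      rw [h5, toD_mul, map_mul, map_mul, hs _ (Or.inr h6), hs _ (Or.inr h7), one_mul])
  obtain ⟨h12, h4⟩ := key (τ.comp φ) hφ
  refine ⟨φ, ?_, ?_, ?_⟩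
  · rw [injective_iff_map_eq_one]
    intro b hb
    have hb' : b = toD (b.v, b.u) := rfl
    rw [hb'] at hb ⊢
    rcases hcases (b.v, b.u) with h | h | h | h
    · rw [clD_zero _ h, toD_one]
    · exfalso
      have h5 := (h12 _ (Or.inl h)).2
      change fixn (τ (φ _)) + _ = _ at h5
      rw [hb, map_one, fixn_one] at h5
      omega
    · exfalso
      have h5 := (h12 _ (Or.inr h)).2
      change fixn (τ (φ _)) + _ = _ at h5
      rw [hb, map_one, fixn_one] at h5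
      omega
    · exfalso
      have h5 := (h4 _ h).2.1
      change fixn (τ (φ _)) + _ = _ at h5
      rw [hb, map_one, fixn_one] at h5
      omega
  · intro x hx
    obtain ⟨h5, h6⟩ := h12 x hx
    exact ⟨by rw [← map_pow, h5, map_one], h6⟩
  · intro x hx
    obtain ⟨h5, h6, h7⟩ := h4 x hx
    refine ⟨by rw [← map_pow, h5, map_one], h6, ?_⟩
    rw [← map_pow]
    exact h7

end

section

variable {G X : Type} [Group G] [Fintype G] [Fintype X] [DecidableEq X]
  (τ : G →* Perm X) (hτ : Function.Injective τ) (halt : alternatingGroup X ≤ τ.range)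

/-- a monomial character of a copy of `2^4 : S_3` -/
theorem piece_B (φ : BG →* G) (hφ : Function.Injective φ) {y x3 x4 : G}
    (hy : ∀ θ : G → ℂ, IsClass θ → ∀ x, clB x = 1 ∨ clB x = 3 → θ (φ (toB x)) = θ y)
    (h3 : ∀ θ : G → ℂ, IsClass θ → ∀ x, clB x = 2 → θ (φ (toB x)) = θ x3)
    (h4 : ∀ θ : G → ℂ, IsClass θ → ∀ x, clB x = 4 → θ (φ (toB x)) = θ x4) :
    MonoSum G (fun θ => (96 : ℂ)⁻¹ * (θ 1 + 3 * θ y + 32 * θ x3 - 36 * θ x4)) := by
  classical
  let ψ : Perm (Fin 3) →* ℂˣ := (Units.map (Int.castRingHom ℂ : ℤ →* ℂ)).comp sign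
  refine (MonoSum.piece φ hφ (ψ.comp (Af.right _))).congr fun θ hθ => ?_
  have hψ : ∀ s : Perm (Fin 3), (((ψ s)⁻¹ : ℂˣ) : ℂ) = ((sign s : ℤ) : ℂ) := by
    intro s
    rw [← map_inv]
    change (((sign s⁻¹ : ℤˣ) : ℤ) : ℂ) = ((sign s : ℤ) : ℂ)
    rw [map_inv, Int.units_inv_eq_self]
  let w : Fin 5 → ℂ := ![θ 1, θ y, θ x3, -θ y, -θ x4]
  have e1 : ∑ b : BG, θ (φ b) * (((ψ.comp (Af.right _)) b)⁻¹ : ℂˣ) =
      ∑ x : (W × W) × Perm (Fin 3), w (clB x) := by
    refine Fintype.sum_equiv Af.equivProd _ _ fun b => ?_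
    have hb : b = toB (b.v, b.u) := rfl
    change θ (φ (toB (b.v, b.u))) * (((ψ b.u)⁻¹ : ℂˣ) : ℂ) = w (clB (b.v, b.u))
    rw [hψ]
    have hc : clB (b.v, b.u) = 0 ∨ clB (b.v, b.u) = 1 ∨ clB (b.v, b.u) = 2 ∨
        clB (b.v, b.u) = 3 ∨ clB (b.v, b.u) = 4 := by
      have := (clB (b.v, b.u)).2
      omega
    rcases hc with h | h | h | h | h
    · rw [h, clB_zero _ h, toB_one, map_one]
      have h5 : b.u = 1 := congrArg Prod.snd (clB_zero _ h)
      rw [h5, map_one]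
      simp [w]
    · rw [h, hy θ hθ _ (Or.inl h), (clB_one _ h).2.2.2.2]
      simp [w]
    · rw [h, h3 θ hθ _ h, (clB_two _ h).2.2.2.2]
      simp [w]
    · rw [h, hy θ hθ _ (Or.inr h), (clB_three _ h).2.2.2.2]
      simp [w]
    · rw [h, h4 θ hθ _ h, (clB_four _ h).2.2.2.2]
      simp [w]
  have e2 : Nat.card BG = 96 := by
    rw [Af.card_eq]
    rfl
  rw [e1, e2, sum_classes clB w _ clB_card, Fin.sum_univ_five]
  simp [w]
  ring

/-- a monomial character of a copy of `4^2 : 2` -/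
theorem piece_D (φ : DG →* G) (hφ : Function.Injective φ) {y x4 : G}
    (hy : ∀ θ : G → ℂ, IsClass θ → ∀ x, clD x = 1 ∨ clD x = 2 → θ (φ (toD x)) = θ y)
    (h4 : ∀ θ : G → ℂ, IsClass θ → ∀ x, clD x = 3 → θ (φ (toD x)) = θ x4) :
    MonoSum G (fun θ => (32 : ℂ)⁻¹ * (θ 1 - 13 * θ y + 12 * θ x4)) := by
  classical
  have hζ : (-1 : ℂˣ) ^ 2 = 1 := by rw [sq, neg_one_mul, neg_neg]
  let ψ : U2 →* ℂˣ := powH 2 (-1 : ℂˣ) hζ
  refine (MonoSum.piece φ hφ (ψ.comp (Af.right _))).congr fun θ hθ => ?_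
  have hψ1 : (((ψ 1)⁻¹ : ℂˣ) : ℂ) = 1 := by
    rw [map_one, inv_one, Units.val_one]
  have hψ : ∀ u : U2, u ≠ 1 → (((ψ u)⁻¹ : ℂˣ) : ℂ) = -1 := by
    intro u hu
    obtain ⟨k, hk0, hk, rfl⟩ := exists_gn_of_ne hu
    have h5 : k = 1 := by omega
    subst h5
    change (((powH 2 (-1 : ℂˣ) hζ (gn 2 1))⁻¹ : ℂˣ) : ℂ) = -1
    rw [powH_gn, pow_one, inv_neg_one, Units.val_neg, Units.val_one]
  let w : Fin 4 → ℂ := ![θ 1, θ y, -θ y, θ x4]
  have e1 : ∑ b : DG, θ (φ b) * (((ψ.comp (Af.right _)) b)⁻¹ : ℂˣ) =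
      ∑ x : (Z4 × Z4) × U2, w (clD x) := by
    refine Fintype.sum_equiv Af.equivProd _ _ fun b => ?_
    have hb : b = toD (b.v, b.u) := rfl
    change θ (φ (toD (b.v, b.u))) * (((ψ b.u)⁻¹ : ℂˣ) : ℂ) = w (clD (b.v, b.u))
    have hc : clD (b.v, b.u) = 0 ∨ clD (b.v, b.u) = 1 ∨ clD (b.v, b.u) = 2 ∨
        clD (b.v, b.u) = 3 := by
      have := (clD (b.v, b.u)).2
      omega
    rcases hc with h | h | h | h
    · rw [h, clD_zero _ h, toD_one, map_one]
      have h5 : b.u = 1 := congrArg Prod.snd (clD_zero _ h)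
      rw [h5, hψ1]
      simp [w]
    · have h5 : b.u = 1 := (clD_one _ h).2.2.2
      rw [h, hy θ hθ _ (Or.inl h), h5, hψ1]
      simp [w]
    · have h5 : b.u ≠ 1 := (clD_two _ h).2.2.2
      rw [h, hy θ hθ _ (Or.inr h), hψ _ h5]
      simp [w]
    · have h5 : b.u = 1 := (clD_three _ h).2.2.2
      rw [h, h4 θ hθ _ h, h5, hψ1]
      simp [w]
  have e2 : Nat.card DG = 32 := by
    rw [Af.card_eq]
    rfl
  rw [e1, e2, sum_classes clD w _ clD_card, Fin.sum_univ_four]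
  simp [w]
  ring

include hτ halt in
/-- **Third identity.** The number of cycles of `x3` is `5 z + γ + j`. -/
theorem four_III {a z k α γ δ i j : ℕ} (hza : 3 * z ≤ a) (hz1 : 1 ≤ z)
    (hz : z = k + 2 * α + 3 * γ) (hzD : z = 3 * (k + γ) + 2 * δ) (hi : j + i = 2 * (k + γ))
    (hX1 : 5 * a + z ≤ Fintype.card X)
    (hX2 : 16 * z + 4 * (k + γ) + j ≤ Fintype.card X)
    {x3 x5 : G} (h3 : x3 ^ 3 = 1) (hx3 : fixn (τ x3) + 3 * (5 * z + γ + j) = Fintype.card X)
    (h5 : x5 ^ 5 = 1) (hx5 : fixn (τ x5) + 5 * a = Fintype.card X) :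
    MonoSum G (fun θ => (60 : ℂ)⁻¹ * (4 * θ 1 + 20 * θ x3 - 24 * θ x5)) := by
  classical
  obtain ⟨F, _, _, _, hF, hF2⟩ := exists_field16
  obtain ⟨g, hg⟩ := exists_orderOf F (m := 5) (by rw [hF]; norm_num)
  have hg1 : g ^ 5 = 1 := by rw [← hg, pow_orderOf_eq_one]
  -- the group 2^4 : 5
  obtain ⟨F5, hF5, hF5a, hF5b⟩ := Real.cyc 5 5 dvd_rfl
  have hF5c : ∀ u, u ≠ 1 → F5 u = 0 := by
    intro u hu
    obtain ⟨j, hj0, hj, rfl⟩ := exists_gn_of_ne hu
    rw [hF5b, if_neg]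
    intro h1
    exact absurd (Nat.le_of_dvd hj0 h1) (by omega)
  obtain ⟨φ, hφ, hφv, hφu⟩ := exists_affine τ hτ halt hg1 hg hF hF2 hz1
    (hF5.nsmul (a - 3 * z)) (by rw [hF5a]) (fun u hu => by rw [hF5c u hu]; omega) (by omega)
    (fun s hs hs1 => sign_inv (z := z) hs (by omega))
    (fun s hs _ => sign_odd (by decide) hs)
  obtain ⟨φB, hφB, hB13, hB2, hB4⟩ := exists_B τ hτ halt hz hz1 hi (by omega)
  obtain ⟨φD, hφD, hD12, hD3⟩ := exists_D τ hτ halt hzD hz1 (by omega)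
  -- the involution
  set y : G := φ ⟨1, 1⟩ with hy
  have hy2 : y ^ 2 = 1 := by
    rw [hy, ← map_pow, Af.mk_pow_one, hF2]
    have h1 : (⟨0, 1⟩ : Af (chiF F 5 g hg1)) = 1 := rfl
    rw [h1, map_one]
  have hyf : fixn (τ y) + z * 16 = Fintype.card X := hφv 1 one_ne_zero
  have hinv : ∀ x : G, x ^ 2 = 1 → fixn (τ x) + 16 * z = Fintype.card X →
      ∀ θ : G → ℂ, IsClass θ → θ x = θ y := by
    intro x hx hx1 θ hθ
    exact class_eq_of_prime τ hτ halt Nat.prime_two hx hy2 (by omega)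
      (oddCent_of_prime Nat.prime_two (by rw [← map_pow, hx, map_one]) (by omega)) hθ
  have hyv : ∀ θ : G → ℂ, IsClass θ → ∀ v, v ≠ 0 → θ (φ ⟨v, 1⟩) = θ y := by
    intro θ hθ v hv
    have h1 := hφv v hv
    refine hinv _ ?_ (by omega) θ hθ
    rw [← map_pow, Af.mk_pow_one, hF2]
    have h1 : (⟨0, 1⟩ : Af (chiF F 5 g hg1)) = 1 := rfl
    rw [h1, map_one]
  -- elements of order five
  have h5u : ∀ θ : G → ℂ, IsClass θ → ∀ u, u ≠ 1 → θ (φ ⟨0, u⟩) = θ x5 := by
    intro θ hθ u hu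
    have h1 := hφu u hu
    rw [hF5c u hu] at h1
    have h2 : (φ ⟨0, u⟩) ^ 5 = 1 := by
      rw [← map_pow, Af.mk_pow_zero]
      have h3 : u ^ 5 = 1 := by
        obtain ⟨j, -, rfl⟩ := exists_gn u
        rw [gn_pow, ← pow_mul, mul_comm, pow_mul]
        have h4 : gn 5 1 ^ 5 = 1 := by
          rw [← gn_pow]
          rfl
        rw [h4, one_pow]
      rw [h3]
      have h1 : (⟨0, 1⟩ : Af (chiF F 5 g hg1)) = 1 := rfl
      rw [h1, map_one]
    exact class_eq_of_prime τ hτ halt Nat.prime_five h2 h5 (by omega)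
      (oddCent_of_prime Nat.prime_five (by rw [← map_pow, h2, map_one]) (by omega)) hθ
  -- elements of order four
  set x4 : G := φD (toD ((1, 0), 1)) with hx4
  obtain ⟨h4a, h4b, h4c⟩ := hD3 ((1, 0), 1) (by decide)
  have h4ne : ∀ x : G, fixn (τ x) + (16 * z + 4 * (k + γ)) = Fintype.card X → x ≠ 1 := by
    intro x hx h1
    rw [h1, map_one, fixn_one] at hx
    omega
  have hfour : ∀ x : G, x ^ 4 = 1 → fixn (τ x) + (16 * z + 4 * (k + γ)) = Fintype.card X →
      fixn (τ (x ^ 2)) + 16 * z = Fintype.card X → ∀ θ : G → ℂ, IsClass θ → θ x = θ x4 := by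
    intro x hx hx1 hx2 θ hθ
    refine class_eq_four τ hτ halt hx h4a (h4ne x hx1) ?_ ?_ hθ
    · have h1 : fixn (τ x4) + (16 * z + 4 * (k + γ)) = Fintype.card X := h4b
      omega
    · have h1 : fixn (τ (x4 ^ 2)) + 16 * z = Fintype.card X := h4c
      omega
  have hPB := piece_B φB hφB (y := y) (x3 := x3) (x4 := x4)
    (fun θ hθ x hx => hinv _ (hB13 x hx).1 (hB13 x hx).2 θ hθ)
    (fun θ hθ x hx => by
      obtain ⟨h1, h2⟩ := hB2 x hx
      exact class_eq_of_prime τ hτ halt Nat.prime_three h1 h3 (by omega)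
        (oddCent_of_prime Nat.prime_three (by rw [← map_pow, h1, map_one]) (by omega)) hθ)
    (fun θ hθ x hx => hfour _ (hB4 x hx).1 (hB4 x hx).2.1 (hB4 x hx).2.2 θ hθ)
  have hPD := piece_D φD hφD (y := y) (x4 := x4)
    (fun θ hθ x hx => hinv _ (hD12 x hx).1 (hD12 x hx).2 θ hθ)
    (fun θ hθ x hx => hfour _ (hD3 x hx).1 (hD3 x hx).2.1 (hD3 x hx).2.2 θ hθ)
  obtain ⟨ζ, hζ, hζ1⟩ := exists_zeta 5 (by norm_num)
  have hP := (piece_affine (fun u hu x hx => chiF_free hg1 hg hu x hx) hF φ hφ hζ hyv).nsmul 2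
  refine ((hP.add hPB).add hPD).congr fun θ hθ => ?_
  have e1 : ∑ k ∈ Finset.range (5 - 1), θ (φ ⟨0, gn 5 (k + 1)⟩) * ((ζ : ℂ)⁻¹) ^ (k + 1) =
      - θ x5 := by
    set ω : ℂ := (ζ : ℂ)⁻¹ with hω
    have hω5 : ω ^ 5 = 1 := by
      rw [hω, inv_pow, ← Units.val_pow_eq_pow_val, hζ, Units.val_one, inv_one]
    have hω1 : ω - 1 ≠ 0 := by
      intro h1
      apply hζ1 1 (by norm_num) (by norm_num)
      have h2 : ω = 1 := by linear_combination h1
      rw [pow_one, ← inv_inj, ← hω, h2, inv_one]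
    have hs : ω + ω ^ 2 + ω ^ 3 + ω ^ 4 = -1 := by
      apply mul_left_cancel₀ hω1
      linear_combination hω5
    have h7 : ∀ k ∈ Finset.range (5 - 1), θ (φ ⟨0, gn 5 (k + 1)⟩) * ω ^ (k + 1) =
        θ x5 * ω ^ (k + 1) := by
      intro j hj
      have := Finset.mem_range.1 hj
      rw [h5u θ hθ _ (gn_ne_one (by omega) (by omega))]
    rw [Finset.sum_congr rfl h7, ← Finset.mul_sum]
    simp only [Nat.reduceSub, Finset.sum_range_succ, Finset.sum_range_zero, zero_add, pow_one]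
    linear_combination (θ x5) * hs
  rw [e1]
  push_cast
  ring

end

end Pool.Agent.H50.A5
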