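import Pool.Agent.H50.A5.Two
import Pool.Agent.H50.A5.Three

/-!
# The three identities together
-/

open Equiv Equiv.Perm
open Pool.Agent.H7.Artin Pool.Agent.H58.S2 Pool.Agent.H72.PM Pool.Agent.H72.E17
open Pool.Agent.H72.A5

namespace Pool.Agent.H50.A5

set_option linter.unusedSectionVars false

section

variable {G X : Type} [Group G] [Fintype G] [Fintype X] [DecidableEq X]
  (τ : G →* Perm X) (hτ : Function.Injective τ) (halt : alternatingGroup X ≤ τ.range)

include hτ halt in
/-- **All pairs.** `a` cycles of length five, `b ≥ 30` cycles of length three. -/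
theorem four_all {a b : ℕ} (hb : 30 ≤ b) (hba : b ≤ 2 * a) (h : 3 ∣ a ∨ b + 8 ≤ 2 * a)
    (hn : 5 * a + b ≤ Fintype.card X)
    {x3 x5 : G} (h3 : x3 ^ 3 = 1) (hx3 : fixn (τ x3) + 3 * b = Fintype.card X)
    (h5 : x5 ^ 5 = 1) (hx5 : fixn (τ x5) + 5 * a = Fintype.card X) :
    MonoSum G (fun θ => (60 : ℂ)⁻¹ * (4 * θ 1 + 20 * θ x3 - 24 * θ x5)) := by
  by_cases h3b : 3 ∣ b
  · obtain ⟨k, rfl⟩ := h3b
    refine four_I τ hτ halt (a := a) (k := k) (z := (k + 1) / 2) ?_ ?_ ?_ ?_ ?_ ?_ h3 ?_ h5 hx5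
    · rcases h with h | h
      · obtain ⟨q, rfl⟩ := h
        omega
      · omega
    · omega
    · omega
    · omega
    · omega
    · omega
    · omega
  by_cases hZ : 3 * (b / 5) ≤ a
  · -- third identity
    have key : ∀ ν : ℕ, 3 * ν ≤ b / 5 → ν ≤ 3 → b - 5 * (b / 5) ≤ 3 * ν →
        (b / 5) % 2 = ν % 2 → MonoSum G (fun θ => (60 : ℂ)⁻¹ * (4 * θ 1 + 20 * θ x3 - 24 * θ x5)) := by
      intro ν hν hν3 hr hpar
      obtain ⟨γ, j, hγ, hj, hγj⟩ : ∃ γ j : ℕ, γ ≤ ν ∧ j ≤ 2 * ν ∧ γ + j = b - 5 * (b / 5) := by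
        rcases Nat.lt_or_ge (b - 5 * (b / 5)) ν with h1 | h1
        · exact ⟨b - 5 * (b / 5), 0, h1.le, by omega, by omega⟩
        · exact ⟨ν, b - 5 * (b / 5) - ν, le_rfl, by omega, by omega⟩
      obtain ⟨δ, hδ⟩ : ∃ δ, b / 5 = 3 * ν + 2 * δ := by
        refine ⟨(b / 5 - 3 * ν) / 2, ?_⟩
        omega
      refine four_III τ hτ halt (a := a) (z := b / 5) (k := ν - γ) (α := ν - γ + δ) (γ := γ)
        (δ := δ) (i := 2 * ν - j) (j := j) hZ ?_ ?_ ?_ ?_ ?_ ?_ h3 ?_ h5 hx5
      · omega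
      · omega
      · omega
      · omega
      · omega
      · omega
      · have h1 : 5 * (b / 5) + γ + j = b := by omega
        rw [h1]
        exact hx3
    rcases Nat.even_or_odd (b / 5) with he | ho
    · rw [Nat.even_iff] at he
      exact key 2 (by omega) (by omega) (by omega) (by omega)
    · rw [Nat.odd_iff] at ho
      rcases Nat.lt_or_ge (b / 5) 9 with h1 | h1
      · have h7 : b / 5 = 7 := by omega
        have h8 : b ≤ 38 := by
          by_contra hcon
          have h9 : b = 39 := by omega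
          exact h3b ⟨13, h9⟩
        exact key 1 (by omega) (by omega) (by omega) (by omega)
      · exact key 3 (by omega) (by omega) (by omega) (by omega)
  · -- second identity
    refine four_II τ hτ halt (a := a) (b := b) (Z := a / 3) ?_ ?_ ?_ ?_ ?_ ?_ ?_ h3 hx3 h5 hx5
    · omega
    · omega
    · rcases h with h | h
      · omega
      · omega
    · omega
    · omega
    · omega
    · omega

end

end Pool.Agent.H50.A5
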