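import Pool.Agent.H50.A5.Aff

/-!
# Cyclic groups of linear maps, and sums over their characters
-/

open Equiv Equiv.Perm
open Pool.Agent.H7.Artin Pool.Agent.H58.S2 Pool.Agent.H72.PM Pool.Agent.H72.E17
open Pool.Agent.H72.A5

namespace Pool.Agent.H50.A5

set_option linter.unusedSectionVars false

/-- the homomorphism from a cyclic group which sends the generator to `g` -/
def powH {A : Type} [Monoid A] (m : ℕ) [NeZero m] (g : A) (hg : g ^ m = 1) :
    Multiplicative (ZMod m) →* A where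
  toFun j := g ^ (Multiplicative.toAdd j).val
  map_one' := by
    rw [toAdd_one, ZMod.val_zero, pow_zero]
  map_mul' a b := by
    rw [toAdd_mul, ZMod.val_add, ← pow_eq_pow_mod _ hg, pow_add]

/-- the powers of the generator -/
def gn (m k : ℕ) : Multiplicative (ZMod m) := Multiplicative.ofAdd (k : ZMod m)

theorem powH_gn {A : Type} [Monoid A] {m : ℕ} [NeZero m] {g : A} (hg : g ^ m = 1) (k : ℕ) :
    powH m g hg (gn m k) = g ^ k := by
  change g ^ (k : ZMod m).val = g ^ k
  rw [ZMod.val_natCast, ← pow_eq_pow_mod _ hg]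

theorem gn_pow (m k : ℕ) : gn m k = gn m 1 ^ k := by
  unfold gn
  rw [← ofAdd_nsmul, Nat.cast_one, nsmul_eq_mul, mul_one]

theorem gn_zero (m : ℕ) : gn m 0 = 1 := by
  unfold gn
  rw [Nat.cast_zero]
  rfl

theorem gn_ne_one {m k : ℕ} (h0 : 0 < k) (hk : k < m) : gn m k ≠ 1 := by
  intro h
  have h1 : (k : ZMod m) = 0 := h
  rw [ZMod.natCast_eq_zero_iff] at h1
  exact absurd (Nat.le_of_dvd h0 h1) (by omega)

theorem exists_gn {m : ℕ} [NeZero m] (u : Multiplicative (ZMod m)) :
    ∃ k, k < m ∧ u = gn m k := by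
  refine ⟨(Multiplicative.toAdd u).val, ZMod.val_lt _, ?_⟩
  change _ = Multiplicative.ofAdd (((Multiplicative.toAdd u).val : ℕ) : ZMod m)
  rw [ZMod.natCast_zmod_val]
  rfl

theorem exists_gn_of_ne {m : ℕ} [NeZero m] {u : Multiplicative (ZMod m)} (hu : u ≠ 1) :
    ∃ k, 0 < k ∧ k < m ∧ u = gn m k := by
  obtain ⟨k, hk, rfl⟩ := exists_gn u
  refine ⟨k, ?_, hk, rfl⟩
  rcases Nat.eq_zero_or_pos k with h | h
  · rw [h, gn_zero] at hu
    exact absurd rfl hu
  · exact h

theorem sum_gn {m : ℕ} [NeZero m] (f : Multiplicative (ZMod m) → ℂ) :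
    ∑ u, f u = ∑ k ∈ Finset.range m, f (gn m k) := by
  symm
  refine Finset.sum_nbij' (fun k => gn m k) (fun u => (Multiplicative.toAdd u).val) ?_ ?_ ?_ ?_ ?_
  · intro k _
    exact Finset.mem_univ _
  · intro u _
    exact Finset.mem_range.2 (ZMod.val_lt _)
  · intro k hk
    change (k : ZMod m).val = k
    rw [ZMod.val_natCast, Nat.mod_eq_of_lt (Finset.mem_range.1 hk)]
  · intro u _
    change Multiplicative.ofAdd (((Multiplicative.toAdd u).val : ℕ) : ZMod m) = u
    rw [ZMod.natCast_zmod_val]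
    rfl
  · intro k _
    rfl

theorem sum_erase_gn {m : ℕ} [NeZero m] (f : Multiplicative (ZMod m) → ℂ) :
    ∑ u ∈ Finset.univ.erase (1 : Multiplicative (ZMod m)), f u =
      ∑ k ∈ Finset.range (m - 1), f (gn m (k + 1)) := by
  have h1 := sum_gn f
  rw [← Finset.add_sum_erase _ _ (Finset.mem_univ (1 : Multiplicative (ZMod m)))] at h1
  have h2 : m = (m - 1) + 1 := by
    have := NeZero.ne m
    omega
  have h4 : ∀ n, n = (m - 1) + 1 → ∑ k ∈ Finset.range n, f (gn m k) =
      ∑ k ∈ Finset.range (m - 1), f (gn m (k + 1)) + f (gn m 0) := by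
    rintro n rfl
    exact Finset.sum_range_succ' _ _
  have h3 := h4 m h2
  rw [h3, gn_zero, add_comm] at h1
  exact add_right_cancel h1

/-- multiplication by the powers of `g` -/
noncomputable def chiF (F : Type) [Field F] (m : ℕ) [NeZero m] (g : F) (hg : g ^ m = 1) :
    Multiplicative (ZMod m) →* AddMonoid.End F :=
  ((Module.toAddMonoidEnd F F : F →+* AddMonoid.End F) : F →* AddMonoid.End F).comp (powH m g hg)

section

variable {F : Type} [Field F] {m : ℕ} [NeZero m] {g : F} (hg : g ^ m = 1)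

theorem chiF_gn (k : ℕ) (x : F) : chiF F m g hg (gn m k) x = g ^ k * x := by
  change powH m g hg (gn m k) • x = _
  rw [powH_gn, smul_eq_mul]

theorem chiF_free (ho : orderOf g = m) {u : Multiplicative (ZMod m)} (hu : u ≠ 1) (x : F)
    (hx : chiF F m g hg u x = x) : x = 0 := by
  obtain ⟨k, h0, hk, rfl⟩ := exists_gn_of_ne hu
  rw [chiF_gn] at hx
  by_contra hne
  have h1 : g ^ k = 1 := by
    have h2 : g ^ k * x = 1 * x := by rw [one_mul]; exact hx
    exact mul_right_cancel₀ hne h2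
  have h2 := orderOf_dvd_of_pow_eq_one h1
  rw [ho] at h2
  exact absurd (Nat.le_of_dvd h0 h2) (by omega)

end

theorem exists_orderOf (F : Type) [Field F] [Fintype F] {m : ℕ}
    (h : m ∣ Fintype.card F - 1) : ∃ g : F, orderOf g = m := by
  classical
  obtain ⟨g0, hg0⟩ := IsCyclic.exists_ofOrder_eq_natCard (α := Fˣ)
  rw [Nat.card_eq_fintype_card, Fintype.card_units] at hg0
  obtain ⟨d, hd⟩ := h
  have hpos : 0 < Fintype.card F - 1 := by
    have := Fintype.one_lt_card (α := F)
    omega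
  have hd0 : 0 < d := by
    rcases Nat.eq_zero_or_pos d with h1 | h1
    · rw [h1, mul_zero] at hd
      omega
    · exact h1
  refine ⟨((g0 ^ d : Fˣ) : F), ?_⟩
  rw [orderOf_units]
  rw [orderOf_pow_of_dvd hd0.ne' (by rw [hg0, hd]; exact dvd_mul_left _ _), hg0, hd,
    Nat.mul_div_cancel _ hd0]

theorem exists_field16 : ∃ (F : Type) (_ : Field F) (_ : Fintype F) (_ : DecidableEq F),
    Fintype.card F = 16 ∧ ∀ x : F, 2 • x = 0 := by
  classical
  have hp : Fact (Nat.Prime 2) := ⟨Nat.prime_two⟩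
  let _ : Fintype (GaloisField 2 4) := Fintype.ofFinite _
  refine ⟨GaloisField 2 4, inferInstance, Fintype.ofFinite _, inferInstance, ?_, fun x => ?_⟩
  · rw [← Nat.card_eq_fintype_card, GaloisField.card 2 4 (by norm_num)]
    norm_num
  · have : CharP (GaloisField 2 4) 2 := inferInstance
    rw [nsmul_eq_mul, CharP.cast_eq_zero, zero_mul]

theorem exists_field9 : ∃ (F : Type) (_ : Field F) (_ : Fintype F) (_ : DecidableEq F),
    Fintype.card F = 9 ∧ ∀ x : F, 3 • x = 0 := by
  classical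
  have hp : Fact (Nat.Prime 3) := ⟨Nat.prime_three⟩
  let _ : Fintype (GaloisField 3 2) := Fintype.ofFinite _
  refine ⟨GaloisField 3 2, inferInstance, Fintype.ofFinite _, inferInstance, ?_, fun x => ?_⟩
  · rw [← Nat.card_eq_fintype_card, GaloisField.card 3 2 (by norm_num)]
    norm_num
  · have : CharP (GaloisField 3 2) 3 := inferInstance
    rw [nsmul_eq_mul, CharP.cast_eq_zero, zero_mul]

/-- a complex unit of order `m` -/
theorem exists_zeta (m : ℕ) (hm : m ≠ 0) : ∃ ζ : ℂˣ, ζ ^ m = 1 ∧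
    ∀ k, 0 < k → k < m → (ζ : ℂ) ^ k ≠ 1 := by
  have h := Complex.isPrimitiveRoot_exp m hm
  obtain ⟨u, hu⟩ : ∃ u : ℂˣ, (u : ℂ) = Complex.exp (2 * _root_.Real.pi * Complex.I / m) :=
    ⟨Units.mk0 _ (h.ne_zero hm), rfl⟩
  refine ⟨u, ?_, ?_⟩
  · apply Units.ext
    rw [Units.val_pow_eq_pow_val, hu, h.pow_eq_one, Units.val_one]
  · intro k h0 hk hone
    rw [hu] at hone
    exact h.pow_ne_one_of_pos_of_lt h0.ne' hk hone

end Pool.Agent.H50.A5
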