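import Pool.Agent.H50.A5.One

/-!
# The dihedral group of order thirty in symmetric and alternating groups
-/

open Equiv Equiv.Perm
open Pool.Agent.H7.Artin Pool.Agent.H58.S2 Pool.Agent.H72.PM Pool.Agent.H72.E17
open Pool.Agent.H72.A5

namespace Pool.Agent.H50.A5

set_option linter.unusedSectionVars false

/-- inversion -/
noncomputable def chiN (V : Type) [AddCommGroup V] :
    Multiplicative (ZMod 2) →* AddMonoid.End V :=
  powH 2 (-1 : AddMonoid.End V) (by rw [sq, neg_one_mul, neg_neg])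

theorem chiN_one {V : Type} [AddCommGroup V] (x : V) : chiN V (gn 2 1) x = -x := by
  unfold chiN
  rw [powH_gn, pow_one]
  rfl

theorem chiN_compat {V V' : Type} [AddCommGroup V] [AddCommGroup V'] (p : V →+ V')
    (u : Multiplicative (ZMod 2)) (x : V) : p (chiN V u x) = chiN V' u (p x) := by
  obtain ⟨k, hk, rfl⟩ := exists_gn u
  have h1 : k = 0 ∨ k = 1 := by omega
  rcases h1 with rfl | rfl
  · rw [gn_zero, Af.chi_one, Af.chi_one]
  · rw [chiN_one, chiN_one, map_neg]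

theorem chiN_free {V : Type} [AddCommGroup V] (h : ∀ x : V, -x = x → x = 0)
    (u : Multiplicative (ZMod 2)) (hu : u ≠ 1) (x : V) (hx : chiN V u x = x) : x = 0 := by
  obtain ⟨k, hk0, hk, rfl⟩ := exists_gn_of_ne hu
  have h1 : k = 1 := by omega
  subst h1
  rw [chiN_one] at hx
  exact h x hx

/-- the sum of a function over the group, with the translations separately -/
theorem Af.sum_af' {V U : Type} [AddCommGroup V] [Fintype V] [Group U] [Fintype U]
    [DecidableEq U] {χ : U →* AddMonoid.End V} (Φ : Af χ → ℂ) (ψ : U →* ℂˣ) (c : U → ℂ)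
    (hu : ∀ v u, u ≠ 1 → Φ ⟨v, u⟩ = c u) :
    ∑ b : Af χ, Φ b * (((ψ.comp (Af.right χ)) b)⁻¹ : ℂˣ) =
      ∑ v : V, Φ ⟨v, 1⟩ +
        (Fintype.card V : ℂ) * ∑ u ∈ Finset.univ.erase (1 : U), c u * (((ψ u)⁻¹ : ℂˣ) : ℂ) := by
  have e1 : ∑ b : Af χ, Φ b * (((ψ.comp (Af.right χ)) b)⁻¹ : ℂˣ) =
      ∑ u : U, ∑ v : V, Φ ⟨v, u⟩ * (((ψ u)⁻¹ : ℂˣ) : ℂ) := by
    rw [Finset.sum_comm, ← Fintype.sum_prod_type']
    exact Fintype.sum_equiv Af.equivProd _ _ fun b => rfl
  rw [e1, ← Finset.add_sum_erase _ _ (Finset.mem_univ (1 : U))]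
  congr 1
  · refine Finset.sum_congr rfl fun v _ => ?_
    rw [map_one, inv_one, Units.val_one, mul_one]
  · rw [Finset.mul_sum]
    refine Finset.sum_congr rfl fun u hu' => ?_
    rw [Finset.sum_congr rfl (g := fun _ => c u * (((ψ u)⁻¹ : ℂˣ) : ℂ))]
    · rw [Finset.sum_const, Finset.card_univ, nsmul_eq_mul]
    · intro v _
      rw [hu v u (Finset.ne_of_mem_erase hu')]

theorem sum_zmod {m : ℕ} [NeZero m] (f : ZMod m → ℂ) :
    ∑ v, f v = ∑ k ∈ Finset.range m, f (k : ZMod m) := by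
  rw [← Equiv.sum_comp (Multiplicative.toAdd : Multiplicative (ZMod m) ≃ ZMod m) f]
  exact sum_gn (m := m) (fun u => f (Multiplicative.toAdd u))

theorem neg_eq_self_zmod {n : ℕ} (hn : Odd n) (x : ZMod n) (h : -x = x) : x = 0 := by
  have h1 : 2 * x = 0 := by
    have : x + x = 0 := by
      nth_rewrite 1 [← h]
      exact neg_add_cancel x
    rw [two_mul, this]
  have h2 : IsUnit ((2 : ℕ) : ZMod n) := (ZMod.isUnit_iff_coprime 2 n).2
    (Nat.coprime_two_left.2 hn)
  rw [Nat.cast_ofNat] at h2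
  exact (h2.mul_right_eq_zero).1 h1

section

variable {X : Type} [Fintype X] [DecidableEq X]

/-- a permutation with two fixed points commutes with a transposition -/
theorem oddCent_of_fixn {s : Perm X} (h : 2 ≤ fixn s) : OddCent s := by
  unfold fixn at h
  obtain ⟨x, hx, y, hy, hxy⟩ := Finset.one_lt_card.1 h
  rw [Finset.mem_filter] at hx hy
  refine ⟨swap x y, sign_swap hxy, ?_⟩
  rw [mul_swap_eq_swap_mul, hx.2, hy.2]

end

/-- the action of the dihedral group of order `30` on `ZMod n` -/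
noncomputable def dact (n : ℕ) [NeZero n] (h : n ∣ 15) :
    Af (chiN (ZMod 15)) →* Perm (ZMod n) :=
  Af.act (chiN (ZMod n)) ((ZMod.castHom h (ZMod n) : ZMod 15 →+* ZMod n) : ZMod 15 →+ ZMod n)
    (fun u v => chiN_compat _ u v)

theorem fixn_dact_tr (n : ℕ) [NeZero n] (h : n ∣ 15) (k : ℕ) :
    fixn (dact n h ⟨(k : ZMod 15), 1⟩) = if n ∣ k then n else 0 := by
  unfold dact
  rw [Af.fixn_act_tr, ZMod.card]
  have h1 : ((ZMod.castHom h (ZMod n) : ZMod 15 →+* ZMod n) : ZMod 15 →+ ZMod n)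
      (k : ZMod 15) = 0 ↔ n ∣ k := by
    rw [← ZMod.natCast_eq_zero_iff]
    have h2 : ((ZMod.castHom h (ZMod n) : ZMod 15 →+* ZMod n) : ZMod 15 →+ ZMod n)
      (k : ZMod 15) = (k : ZMod n) := map_natCast (ZMod.castHom h (ZMod n)) k
    rw [h2]
  simp only [h1]

theorem fixn_dact_ref (n : ℕ) [NeZero n] (h : n ∣ 15) :
    fixn (dact n h ⟨0, gn 2 1⟩) = 1 := by
  unfold dact
  apply Af.fixn_act_free
  intro x hx
  rw [chiN_one] at hx
  exact neg_eq_self_zmod (Odd.of_dvd_nat (by decide) h) x hx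

section

variable {G X : Type} [Group G] [Fintype G] [Fintype X] [DecidableEq X]
  (τ : G →* Perm X) (hτ : Function.Injective τ) (halt : alternatingGroup X ≤ τ.range)

include hτ halt in
/-- **Copies of the dihedral group of order thirty.** -/
theorem exists_dih {a b Z : ℕ} (ha : 3 * Z ≤ a) (hb : 5 * Z ≤ b) (hab : 2 * a + b ≤ 12 * Z)
    (hZ : 1 ≤ Z) (hX : a + b + 9 * Z ≤ Fintype.card X) :
    ∃ φ : Af (chiN (ZMod 15)) →* G, Function.Injective φ ∧
      (∀ k : ℕ, fixn (τ (φ ⟨(k : ZMod 15), 1⟩)) + (a + b + 9 * Z) =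
        Fintype.card X + (Z * (if 15 ∣ k then 15 else 0) + (a - 3 * Z) * (if 5 ∣ k then 5 else 0) +
          (b - 5 * Z) * (if 3 ∣ k then 3 else 0) + (12 * Z - (2 * a + b)) * 2)) ∧
      fixn (τ (φ ⟨0, gn 2 1⟩)) + 16 * Z = Fintype.card X := by
  classical
  obtain ⟨F2, hF2, hF2a, hF2b⟩ := Real.cyc 2 2 dvd_rfl
  have hR : Real (Af (chiN (ZMod 15))) (a + b + 9 * Z)
      (fun x => Z * fixn (dact 15 dvd_rfl x) + (a - 3 * Z) * fixn (dact 5 (by norm_num) x) +
        (b - 5 * Z) * fixn (dact 3 (by norm_num) x) +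
        (12 * Z - (2 * a + b)) * F2 (Af.right _ x)) := by
    have h1 := ((((Real.of (dact 15 dvd_rfl)).nsmul Z).add
      ((Real.of (dact 5 (by norm_num))).nsmul (a - 3 * Z))).add
      ((Real.of (dact 3 (by norm_num))).nsmul (b - 5 * Z))).add
      ((hF2.nsmul (12 * Z - (2 * a + b))).comap (Af.right (chiN (ZMod 15))))
    refine h1.congr ?_ fun _ => rfl
    rw [ZMod.card, ZMod.card, ZMod.card]
    omega
  have htr : ∀ φ : Af (chiN (ZMod 15)) →* Perm X,
      (∀ x, fixn (φ x) + (a + b + 9 * Z) = Fintype.card X +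
        (Z * fixn (dact 15 dvd_rfl x) + (a - 3 * Z) * fixn (dact 5 (by norm_num) x) +
        (b - 5 * Z) * fixn (dact 3 (by norm_num) x) +
        (12 * Z - (2 * a + b)) * F2 (Af.right _ x))) →
      (∀ k : ℕ, fixn (φ ⟨(k : ZMod 15), 1⟩) + (a + b + 9 * Z) =
        Fintype.card X + (Z * (if 15 ∣ k then 15 else 0) + (a - 3 * Z) * (if 5 ∣ k then 5 else 0) +
          (b - 5 * Z) * (if 3 ∣ k then 3 else 0) + (12 * Z - (2 * a + b)) * 2)) ∧
      fixn (φ ⟨0, gn 2 1⟩) + 16 * Z = Fintype.card X := by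
    intro φ hφ
    constructor
    · intro k
      rw [hφ, fixn_dact_tr, fixn_dact_tr, fixn_dact_tr]
      have h2 : F2 (Af.right _ (⟨(k : ZMod 15), 1⟩ : Af (chiN (ZMod 15)))) = 2 := hF2a
      rw [h2]
    · have h1 := hφ ⟨0, gn 2 1⟩
      rw [fixn_dact_ref, fixn_dact_ref, fixn_dact_ref] at h1
      have h2 : F2 (Af.right _ (⟨0, gn 2 1⟩ : Af (chiN (ZMod 15)))) = 0 := by
        change F2 (gn 2 1) = 0
        rw [hF2b, if_neg (by norm_num)]
      rw [h2] at h1
      omega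
  obtain ⟨φ, hφ⟩ := hR.lift τ hτ halt hX (by
    intro φ hφ
    obtain ⟨h1, h2⟩ := htr φ hφ
    refine sign_all φ ?_ ?_
    · intro v _
      refine sign_odd (m := 15) (by decide) ?_
      rw [← map_pow, Af.mk_pow_one]
      have h3 : (15 • v : ZMod 15) = 0 := by
        rw [nsmul_eq_mul, ZMod.natCast_self, zero_mul]
      rw [h3]
      have h3 : (⟨0, 1⟩ : Af (chiN (ZMod 15))) = 1 := rfl
      rw [h3, map_one]
    · refine sign_unif (m := 2) (N := 8 * Z) ?_ ?_ (by omega) ⟨3 * (4 * Z), by ring⟩ (by norm_num)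
      · rw [← map_pow, Af.mk_pow_zero]
        have h3 : gn 2 1 ^ 2 = 1 := by
          rw [← gn_pow]
          rfl
        rw [h3]
        have h3 : (⟨0, 1⟩ : Af (chiN (ZMod 15))) = 1 := rfl
        rw [h3, map_one]
      · intro j hj0 hj
        have : j = 1 := by omega
        rw [this, pow_one])
  obtain ⟨h1, h2⟩ := htr (τ.comp φ) hφ
  refine ⟨φ, inj_af φ ?_ ?_ ?_, h1, h2⟩
  · exact chiN_free (neg_eq_self_zmod (by decide))
  · intro v hv h3
    have h4 := h1 v.val
    rw [ZMod.natCast_zmod_val] at h4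
    have h5 : ¬ 15 ∣ v.val := by
      rw [← ZMod.natCast_eq_zero_iff, ZMod.natCast_zmod_val]
      exact hv
    change fixn (τ (φ ⟨v, 1⟩)) + _ = _ at h4
    rw [h3, map_one, fixn_one, if_neg h5] at h4
    have h6 : (a - 3 * Z) * (if 5 ∣ v.val then 5 else 0) ≤ (a - 3 * Z) * 5 := by
      apply Nat.mul_le_mul_left
      split_ifs
      · exact le_refl 5
      · norm_num
    have h7 : (b - 5 * Z) * (if 3 ∣ v.val then 3 else 0) ≤ (b - 5 * Z) * 3 := by
      apply Nat.mul_le_mul_left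
      split_ifs
      · exact le_refl 3
      · norm_num
    generalize (a - 3 * Z) * (if 5 ∣ v.val then 5 else 0) = A at h4 h6
    generalize (b - 5 * Z) * (if 3 ∣ v.val then 3 else 0) = B at h4 h7
    omega
  · intro u hu h3
    obtain ⟨k, hk0, hk, rfl⟩ := exists_gn_of_ne hu
    have h4 : k = 1 := by omega
    subst h4
    have h5 := h2
    change fixn (τ (φ ⟨0, gn 2 1⟩)) + _ = _ at h5
    rw [h3, map_one, fixn_one] at h5
    omega

end

end Pool.Agent.H50.A5
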