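import Pool.Agent.H50.A5.Cyc

/-!
# Copies of affine groups in symmetric and alternating groups
-/

open Equiv Equiv.Perm
open Pool.Agent.H7.Artin Pool.Agent.H58.S2 Pool.Agent.H72.PM Pool.Agent.H72.E17
open Pool.Agent.H72.A5

namespace Pool.Agent.H50.A5

set_option linter.unusedSectionVars false

theorem Real.comap {B B' : Type} [Group B] [Group B'] {N : ℕ} {F : B' → ℕ} (h : Real B' N F)
    (π : B →* B') : Real B N (fun b => F (π b)) := by
  obtain ⟨Ω, _, _, f, hN, hF⟩ := h
  exact ⟨Ω, inferInstance, inferInstance, f.comp π, hN, fun b => hF (π b)⟩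

theorem Real.congr {B : Type} [Group B] {N N' : ℕ} {F F' : B → ℕ} (h : Real B N F)
    (hN : N = N') (hF : ∀ b, F b = F' b) : Real B N' F' := by
  obtain ⟨Ω, _, _, f, hN', hF'⟩ := h
  exact ⟨Ω, inferInstance, inferInstance, f, hN'.trans hN, fun b => (hF' b).trans (hF b)⟩

/-- the action of a cyclic group on a quotient of order `d` -/
theorem Real.cyc (m d : ℕ) [NeZero m] [NeZero d] (hd : d ∣ m) :
    ∃ F : Multiplicative (ZMod m) → ℕ, Real (Multiplicative (ZMod m)) d F ∧ F 1 = d ∧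
      ∀ k, F (gn m k) = if d ∣ k then d else 0 := by
  have hg : gn d 1 ^ m = 1 := by
    obtain ⟨e, he⟩ := hd
    rw [he, pow_mul, ← gn_pow]
    have : gn d d = 1 := by
      unfold gn
      rw [ZMod.natCast_self]
      rfl
    rw [this, one_pow]
  let f : Multiplicative (ZMod m) →* Perm (Multiplicative (ZMod d)) :=
    (MulAction.toPermHom _ _).comp (powH m (gn d 1) hg)
  have hc : Fintype.card (Multiplicative (ZMod d)) = d := by
    rw [Fintype.card_multiplicative, ZMod.card]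
  have h1 : ∀ u, fixn (f u) = if powH m (gn d 1) hg u = 1 then d else 0 := by
    intro u
    unfold fixn
    have h2 : ∀ x, f u x = x ↔ powH m (gn d 1) hg u = 1 := by
      intro x
      change powH m (gn d 1) hg u * x = x ↔ _
      exact mul_eq_right
    simp only [h2]
    split_ifs with h
    · rw [Finset.filter_true_of_mem (fun _ _ => h), Finset.card_univ, hc]
    · rw [Finset.filter_false_of_mem (fun _ _ => h), Finset.card_empty]
  refine ⟨fun u => fixn (f u), (Real.of f).congr hc fun _ => rfl, ?_, ?_⟩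
  · change fixn (f 1) = d
    rw [h1, map_one, if_pos rfl]
  · intro k
    change fixn (f (gn m k)) = _
    rw [h1, powH_gn, ← gn_pow]
    have h3 : gn d k = 1 ↔ d ∣ k := by
      unfold gn
      rw [← ZMod.natCast_eq_zero_iff]
      rfl
    simp only [h3]

section

variable {V : Type} [AddCommGroup V] {m : ℕ} [NeZero m]
  {χ : Multiplicative (ZMod m) →* AddMonoid.End V}

theorem sign_all {X : Type} [Fintype X] [DecidableEq X] (φ : Af χ →* Perm X)
    (h1 : ∀ v, v ≠ 0 → sign (φ ⟨v, 1⟩) = 1) (h2 : sign (φ ⟨0, gn m 1⟩) = 1) (b : Af χ) :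
    sign (φ b) = 1 := by
  obtain ⟨v, u⟩ := b
  obtain ⟨k, -, rfl⟩ := exists_gn u
  rw [Af.mk_mul, map_mul, map_mul, gn_pow, ← Af.mk_pow_zero, map_pow, map_pow, h2, one_pow,
    mul_one]
  by_cases hv : v = 0
  · rw [hv]
    have h3 : (⟨0, 1⟩ : Af χ) = 1 := rfl
    rw [h3, map_one, map_one]
  · exact h1 v hv

end

section

variable {V U G : Type} [AddCommGroup V] [Finite V] [Group U] [Group G]
  {χ : U →* AddMonoid.End V}

theorem inj_af (φ : Af χ →* G) (hfree : ∀ u, u ≠ 1 → ∀ x, χ u x = x → x = 0)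
    (h1 : ∀ v, v ≠ 0 → φ ⟨v, 1⟩ ≠ 1) (h2 : ∀ u, u ≠ 1 → φ ⟨0, u⟩ ≠ 1) :
    Function.Injective φ := by
  rw [injective_iff_map_eq_one]
  rintro ⟨v, u⟩ hb
  by_cases hu : u = 1
  · subst hu
    by_cases hv : v = 0
    · rw [hv]
      rfl
    · exact absurd hb (h1 v hv)
  · exfalso
    obtain ⟨c, hc⟩ := Af.exists_conj (hfree u hu) v
    apply h2 u hu
    rw [← hc, map_mul, map_mul, map_inv] at hb
    have h3 : φ ⟨0, u⟩ = (φ c)⁻¹ * (φ c * φ ⟨0, u⟩ * (φ c)⁻¹) * φ c := by group
    rw [h3, hb]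
    group

theorem class_af (φ : Af χ →* G) (hfree : ∀ u, u ≠ 1 → ∀ x, χ u x = x → x = 0) {θ : G → ℂ}
    (hθ : IsClass θ) (v : V) (u : U) (hu : u ≠ 1) : θ (φ ⟨v, u⟩) = θ (φ ⟨0, u⟩) := by
  obtain ⟨c, hc⟩ := Af.exists_conj (hfree u hu) v
  rw [← hc, map_mul, map_mul, map_inv, hθ]

end

section

variable {G X : Type} [Group G] [Fintype G] [Fintype X] [DecidableEq X]
  (τ : G →* Perm X) (hτ : Function.Injective τ) (halt : alternatingGroup X ≤ τ.range)

include hτ halt in
/-- **Copies of affine groups over a finite field.** -/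
theorem exists_affine {F : Type} [Field F] [Fintype F] [DecidableEq F] {m p q z N0 : ℕ} [NeZero m]
    {g : F} (hg : g ^ m = 1) (ho : orderOf g = m) (hq : Fintype.card F = q)
    (hp : ∀ x : F, p • x = 0) (hz : 1 ≤ z) {F0 : Multiplicative (ZMod m) → ℕ}
    (h0 : Real (Multiplicative (ZMod m)) N0 F0) (hF1 : F0 1 = N0)
    (hF0 : ∀ u, u ≠ 1 → z + F0 u < z * q + N0)
    (hX : z * q + N0 ≤ Fintype.card X)
    (hsv : ∀ s : Perm X, s ^ p = 1 → fixn s + z * q = Fintype.card X → sign s = 1)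
    (hsu : ∀ s : Perm X, s ^ m = 1 → (∀ k, 0 < k → k < m →
      fixn (s ^ k) + (z * q + N0) = Fintype.card X + (z + F0 (gn m k))) → sign s = 1) :
    ∃ φ : Af (chiF F m g hg) →* G, Function.Injective φ ∧
      (∀ v, v ≠ 0 → fixn (τ (φ ⟨v, 1⟩)) + z * q = Fintype.card X) ∧
      ∀ u, u ≠ 1 → fixn (τ (φ ⟨0, u⟩)) + (z * q + N0) = Fintype.card X + (z + F0 u) := by
  classical
  have hfree : ∀ u : Multiplicative (ZMod m), u ≠ 1 → ∀ x, chiF F m g hg u x = x → x = 0 :=
    fun u hu x hx => chiF_free hg ho hu x hx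
  let A : Af (chiF F m g hg) →* Perm F :=
    Af.act (chiF F m g hg) (AddMonoidHom.id F) (fun _ _ => rfl)
  have hR : Real (Af (chiF F m g hg)) (z * q + N0)
      (fun b => z * fixn (A b) + F0 (Af.right _ b)) := by
    have h1 := ((Real.of A).nsmul z).add (h0.comap (Af.right (chiF F m g hg)))
    exact h1.congr (by rw [hq]) fun b => rfl
  have hv0 : ∀ v : F, v ≠ 0 → fixn (A ⟨v, 1⟩) = 0 := by
    intro v hv
    have h1 : ¬ (AddMonoidHom.id F) v = 0 := hv
    rw [Af.fixn_act_tr, if_neg h1]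
  have hu0 : ∀ u, u ≠ 1 → fixn (A ⟨0, u⟩) = 1 := by
    intro u hu
    exact Af.fixn_act_free _ _ _ (hfree u hu)
  obtain ⟨φ, hφ⟩ := hR.lift τ hτ halt hX (by
    intro φ hφ
    refine sign_all φ ?_ ?_
    · intro v hv
      refine hsv _ ?_ ?_
      · rw [← map_pow, Af.mk_pow_one, hp v]
        have h3 : (⟨0, 1⟩ : Af (chiF F m g hg)) = 1 := rfl
        rw [h3, map_one]
      · have h4 := hφ ⟨v, 1⟩
        simp only [hv0 v hv] at h4
        have h5 : F0 (Af.right _ (⟨v, 1⟩ : Af (chiF F m g hg))) = N0 := hF1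
        rw [h5] at h4
        omega
    · refine hsu _ ?_ ?_
      · rw [← map_pow, Af.mk_pow_zero]
        have h3 : gn m 1 ^ m = 1 := by
          rw [← gn_pow]
          unfold gn
          rw [ZMod.natCast_self]
          rfl
        rw [h3]
        have h3 : (⟨0, 1⟩ : Af (chiF F m g hg)) = 1 := rfl
        rw [h3, map_one]
      · intro k hk0 hk
        rw [← map_pow, Af.mk_pow_zero, ← gn_pow]
        have h4 := hφ ⟨0, gn m k⟩
        simp only [hu0 _ (gn_ne_one hk0 hk), mul_one] at h4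
        exact h4)
  have hv : ∀ v, v ≠ 0 → fixn (τ (φ ⟨v, 1⟩)) + z * q = Fintype.card X := by
    intro v hv
    have h4 := hφ ⟨v, 1⟩
    simp only [hv0 v hv] at h4
    have h5 : F0 (Af.right _ (⟨v, 1⟩ : Af (chiF F m g hg))) = N0 := hF1
    rw [h5] at h4
    omega
  have hu : ∀ u, u ≠ 1 →
      fixn (τ (φ ⟨0, u⟩)) + (z * q + N0) = Fintype.card X + (z + F0 u) := by
    intro u hu
    have h4 := hφ ⟨0, u⟩
    simp only [hu0 u hu, mul_one] at h4
    exact h4
  refine ⟨φ, inj_af φ hfree ?_ ?_, hv, hu⟩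
  · intro v hv' h1
    have h2 := hv v hv'
    rw [h1, map_one, fixn_one] at h2
    have h3 : 0 < q := by
      rw [← hq]
      exact Fintype.card_pos
    have h4 : 0 < z * q := Nat.mul_pos hz h3
    omega
  · intro u hu' h1
    have h2 := hu u hu'
    rw [h1, map_one, fixn_one] at h2
    have h3 := hF0 u hu'
    omega

end

end Pool.Agent.H50.A5
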