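import Pool.Agent.H50.A5.Hom

/-!
# The first identity
-/

open Equiv Equiv.Perm
open Pool.Agent.H7.Artin Pool.Agent.H58.S2 Pool.Agent.H72.PM Pool.Agent.H72.E17
open Pool.Agent.H72.A5

namespace Pool.Agent.H50.A5

set_option linter.unusedSectionVars false

/-- a monomial character of an affine group -/
theorem piece_affine {G : Type} [Group G] [Fintype G] {V : Type} [AddCommGroup V] [Fintype V]
    [DecidableEq V] {m q : ℕ} [NeZero m] {χ : Multiplicative (ZMod m) →* AddMonoid.End V}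
    (hfree : ∀ u, u ≠ 1 → ∀ x, χ u x = x → x = 0) (hq : Fintype.card V = q)
    (φ : Af χ →* G) (hφ : Function.Injective φ) {ζ : ℂˣ} (hζ : ζ ^ m = 1) {y : G}
    (hy : ∀ θ : G → ℂ, IsClass θ → ∀ v, v ≠ 0 → θ (φ ⟨v, 1⟩) = θ y) :
    MonoSum G (fun θ => ((q : ℂ) * m)⁻¹ * (θ 1 + ((q : ℂ) - 1) * θ y +
      (q : ℂ) * ∑ k ∈ Finset.range (m - 1), θ (φ ⟨0, gn m (k + 1)⟩) *
        ((ζ : ℂ)⁻¹) ^ (k + 1))) := by
  refine (MonoSum.piece φ hφ ((powH m ζ hζ).comp (Af.right χ))).congr fun θ hθ => ?_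
  have h1 := Af.sum_af (fun b => θ (φ b)) (powH m ζ hζ) (fun u => θ (φ ⟨0, u⟩)) (θ y)
    (fun v hv => hy θ hθ v hv) (fun v u hu => class_af φ hfree hθ v u hu)
  rw [h1, Af.card_eq, hq, map_one, sum_erase_gn]
  have h2 : Fintype.card (Multiplicative (ZMod m)) = m := by
    rw [Fintype.card_multiplicative, ZMod.card]
  rw [h2]
  push_cast
  congr 3
  refine Finset.sum_congr rfl fun k _ => ?_
  rw [powH_gn]
  congr 1
  rw [Units.val_pow_eq_pow_val, inv_pow]

section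

variable {G X : Type} [Group G] [Fintype G] [Fintype X] [DecidableEq X]
  (τ : G →* Perm X) (hτ : Function.Injective τ) (halt : alternatingGroup X ≤ τ.range)

/-- an element of order dividing a power of two commutes with an odd permutation -/
theorem oddCent_two {s : Perm X} {n : ℕ} (hs : s ^ (2 ^ n) = 1) (h1 : s ≠ 1) : OddCent s := by
  apply oddCent_of_even
  have h2 : orderOf s ∣ 2 ^ n := orderOf_dvd_of_pow_eq_one hs
  obtain ⟨k, hk, h3⟩ := (Nat.dvd_prime_pow Nat.prime_two).1 h2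
  rw [h3]
  rcases Nat.eq_zero_or_pos k with h4 | h4
  · rw [h4, pow_zero] at h3
    exact absurd (orderOf_eq_one_iff.1 h3) h1
  · exact (Nat.even_pow.2 ⟨even_two, by omega⟩)

include hτ halt in
theorem class_two_pow {x : G} {n j : ℕ} (hx : x ^ (2 ^ n) = 1) (h1 : x ≠ 1) (hj : Odd j)
    {θ : G → ℂ} (hθ : IsClass θ) : θ (x ^ j) = θ x := by
  refine class_eq_pow τ hτ halt ?_ (oddCent_two (n := n) (by rw [← map_pow, hx, map_one]) ?_) hθ
  · have h2 : orderOf x ∣ 2 ^ n := orderOf_dvd_of_pow_eq_one hx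
    refine Nat.Coprime.coprime_dvd_right h2 ?_
    exact (Nat.Coprime.pow_right n (Nat.coprime_two_right.2 hj))
  · intro h2
    apply h1
    apply hτ
    rw [h2, map_one]

include hτ halt in
/-- **First identity.** -/
theorem four_I {a k z : ℕ} (hza : 3 * z ≤ a) (hkz : k ≤ 2 * z) (hz : 1 ≤ z) (hk : 1 ≤ k)
    (hX1 : 5 * a + z ≤ Fintype.card X) (hX2 : k + 16 * z ≤ Fintype.card X)
    {x3 x5 : G} (h3 : x3 ^ 3 = 1) (hx3 : fixn (τ x3) + 9 * k = Fintype.card X)
    (h5 : x5 ^ 5 = 1) (hx5 : fixn (τ x5) + 5 * a = Fintype.card X) :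
    MonoSum G (fun θ => (60 : ℂ)⁻¹ * (4 * θ 1 + 20 * θ x3 - 24 * θ x5)) := by
  classical
  obtain ⟨F, _, _, _, hF, hF2⟩ := exists_field16
  obtain ⟨K, _, _, _, hK, hK3⟩ := exists_field9
  obtain ⟨g, hg⟩ := exists_orderOf F (m := 5) (by rw [hF]; norm_num)
  obtain ⟨h, hh⟩ := exists_orderOf K (m := 8) (by rw [hK])
  have hg1 : g ^ 5 = 1 := by rw [← hg, pow_orderOf_eq_one]
  have hh1 : h ^ 8 = 1 := by rw [← hh, pow_orderOf_eq_one]
  -- the group 2^4 : 5
  obtain ⟨F5, hF5, hF5a, hF5b⟩ := Real.cyc 5 5 dvd_rfl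
  have hF5c : ∀ u, u ≠ 1 → F5 u = 0 := by
    intro u hu
    obtain ⟨j, hj0, hj, rfl⟩ := exists_gn_of_ne hu
    rw [hF5b, if_neg]
    intro h1
    exact absurd (Nat.le_of_dvd hj0 h1) (by omega)
  obtain ⟨φ, hφ, hφv, hφu⟩ := exists_affine τ hτ halt hg1 hg hF hF2 hz
    (hF5.nsmul (a - 3 * z)) (by rw [hF5a]) (fun u hu => by rw [hF5c u hu]; omega) (by omega)
    (fun s hs hs1 => by
      refine sign_unif (N := 8 * z) hs ?_ ?_ ?_ (by norm_num)
      · intro j hj0 hj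
        have : j = 1 := by omega
        rw [this, pow_one]
      · omega
      · exact ⟨3 * (4 * z), by ring⟩)
    (fun s hs _ => sign_odd (by decide) hs)
  -- the group 3^2 : 8
  obtain ⟨F8, hF8, hF8a, hF8b⟩ := Real.cyc 8 8 dvd_rfl
  have hF8c : ∀ u, u ≠ 1 → F8 u = 0 := by
    intro u hu
    obtain ⟨j, hj0, hj, rfl⟩ := exists_gn_of_ne hu
    rw [hF8b, if_neg]
    intro h1
    exact absurd (Nat.le_of_dvd hj0 h1) (by omega)
  obtain ⟨φ', hφ', hφv', hφu'⟩ := exists_affine τ hτ halt hh1 hh hK hK3 hk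
    (hF8.nsmul (2 * z - k)) (by rw [hF8a]) (fun u hu => by rw [hF8c u hu]; omega) (by omega)
    (fun s hs _ => sign_odd (by decide) hs)
    (fun s hs hs1 => by
      have hs2 : ∀ j, 0 < j → j < 8 → fixn (s ^ j) + 16 * z = Fintype.card X := by
        intro j hj0 hj
        have h1 := hs1 j hj0 hj
        rw [hF8c _ (gn_ne_one hj0 hj)] at h1
        omega
      refine sign_unif (N := 2 * z) hs ?_ ?_ ?_ (by norm_num)
      · intro j hj0 hj
        have h1 := hs2 j hj0 hj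
        have h2 := hs2 1 (by norm_num) (by norm_num)
        rw [pow_one] at h2
        omega
      · have h2 := hs2 1 (by norm_num) (by norm_num)
        rw [pow_one] at h2
        omega
      · exact ⟨9 * z, by ring⟩)
  -- the involution
  set y : G := φ ⟨1, 1⟩ with hy
  have hy2 : y ^ 2 = 1 := by
    rw [hy, ← map_pow, Af.mk_pow_one, hF2]
    have h1 : (⟨0, 1⟩ : Af (chiF F 5 g hg1)) = 1 := rfl
    rw [h1, map_one]
  have hyf : fixn (τ y) + z * 16 = Fintype.card X := hφv 1 one_ne_zero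
  have hyv : ∀ θ : G → ℂ, IsClass θ → ∀ v, v ≠ 0 → θ (φ ⟨v, 1⟩) = θ y := by
    intro θ hθ v hv
    have h1 := hφv v hv
    refine class_eq_of_prime τ hτ halt Nat.prime_two ?_ hy2 (by omega) ?_ hθ
    · rw [← map_pow, Af.mk_pow_one, hF2]
      have h1 : (⟨0, 1⟩ : Af (chiF F 5 g hg1)) = 1 := rfl
      rw [h1, map_one]
    · refine oddCent_of_prime Nat.prime_two ?_ (by omega)
      rw [← map_pow, ← map_pow, Af.mk_pow_one, hF2]
      have h1 : (⟨0, 1⟩ : Af (chiF F 5 g hg1)) = 1 := rfl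
      rw [h1, map_one, map_one]
  -- elements of order five
  have h5u : ∀ θ : G → ℂ, IsClass θ → ∀ u, u ≠ 1 → θ (φ ⟨0, u⟩) = θ x5 := by
    intro θ hθ u hu
    have h1 := hφu u hu
    rw [hF5c u hu] at h1
    have h2 : (φ ⟨0, u⟩) ^ 5 = 1 := by
      rw [← map_pow, Af.mk_pow_zero]
      have h3 : u ^ 5 = 1 := by
        obtain ⟨j, -, rfl⟩ := exists_gn u
        rw [gn_pow, ← pow_mul, mul_comm, pow_mul]
        have h4 : gn 5 1 ^ 5 = 1 := by
          rw [← gn_pow]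
          rfl
        rw [h4, one_pow]
      rw [h3]
      have h1 : (⟨0, 1⟩ : Af (chiF F 5 g hg1)) = 1 := rfl
      rw [h1, map_one]
    exact class_eq_of_prime τ hτ halt Nat.prime_five h2 h5 (by omega)
      (oddCent_of_prime Nat.prime_five (by rw [← map_pow, h2, map_one]) (by omega)) hθ
  -- elements of order three
  have h3v : ∀ θ : G → ℂ, IsClass θ → ∀ v, v ≠ 0 → θ (φ' ⟨v, 1⟩) = θ x3 := by
    intro θ hθ v hv
    have h1 := hφv' v hv
    have h2 : (φ' ⟨v, 1⟩) ^ 3 = 1 := by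
      rw [← map_pow, Af.mk_pow_one, hK3]
      have h1 : (⟨0, 1⟩ : Af (chiF K 8 h hh1)) = 1 := rfl
      rw [h1, map_one]
    exact class_eq_of_prime τ hτ halt Nat.prime_three h2 h3 (by omega)
      (oddCent_of_prime Nat.prime_three (by rw [← map_pow, h2, map_one]) (by omega)) hθ
  -- two-elements
  set w : G := φ' ⟨0, gn 8 1⟩ with hw
  have hw8 : w ^ 8 = 1 := by
    rw [hw, ← map_pow, Af.mk_pow_zero]
    have h4 : gn 8 1 ^ 8 = 1 := by
      rw [← gn_pow]
      rfl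
    rw [h4]
    have h1 : (⟨0, 1⟩ : Af (chiF K 8 h hh1)) = 1 := rfl
    rw [h1, map_one]
  have hwj : ∀ j, φ' ⟨0, gn 8 j⟩ = w ^ j := by
    intro j
    rw [hw, ← map_pow, Af.mk_pow_zero, ← gn_pow]
  have hwf : ∀ j, 0 < j → j < 8 → fixn (τ (w ^ j)) + 16 * z = Fintype.card X := by
    intro j hj0 hj
    have h1 := hφu' _ (gn_ne_one hj0 hj)
    rw [hF8c _ (gn_ne_one hj0 hj), hwj] at h1
    omega
  have hwne : ∀ j, 0 < j → j < 8 → w ^ j ≠ 1 := by
    intro j hj0 hj h1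
    have h2 := hwf j hj0 hj
    rw [h1, map_one, fixn_one] at h2
    omega
  have hodd : ∀ θ : G → ℂ, IsClass θ → ∀ j, Odd j → θ (w ^ j) = θ w := by
    intro θ hθ j hj
    refine class_two_pow τ hτ halt (n := 3) (by rw [← hw8]; norm_num) ?_ hj hθ
    have := hwne 1 (by norm_num) (by norm_num)
    rwa [pow_one] at this
  have h6 : ∀ θ : G → ℂ, IsClass θ → θ (w ^ 6) = θ (w ^ 2) := by
    intro θ hθ
    have h1 : w ^ 6 = (w ^ 2) ^ 3 := by rw [← pow_mul]
    rw [h1]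
    refine class_two_pow τ hτ halt (n := 2) (by rw [← pow_mul]; exact hw8) ?_ (by decide) hθ
    exact hwne 2 (by norm_num) (by norm_num)
  have h4 : ∀ θ : G → ℂ, IsClass θ → θ (w ^ 4) = θ y := by
    intro θ hθ
    have h1 := hwf 4 (by norm_num) (by norm_num)
    have h2 : (w ^ 4) ^ 2 = 1 := by rw [← pow_mul]; exact hw8
    exact class_eq_of_prime τ hτ halt Nat.prime_two h2 hy2 (by omega)
      (oddCent_of_prime Nat.prime_two (by rw [← map_pow, h2, map_one]) (by omega)) hθ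
  -- roots of unity
  obtain ⟨ζ, hζ, hζ1⟩ := exists_zeta 5 (by norm_num)
  obtain ⟨ξ, hξ, hξ1⟩ := exists_zeta 8 (by norm_num)
  have hP := (piece_affine (fun u hu x hx => chiF_free hg1 hg hu x hx) hF φ hφ hζ hyv).nsmul 2
  have hP' := (piece_affine (fun u hu x hx => chiF_free hh1 hh hu x hx) hK φ' hφ' hξ h3v).nsmul 3
  refine (hP.add hP').congr fun θ hθ => ?_
  have e1 : ∑ k ∈ Finset.range (5 - 1), θ (φ ⟨0, gn 5 (k + 1)⟩) * ((ζ : ℂ)⁻¹) ^ (k + 1) =
      - θ x5 := by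
    set ω : ℂ := (ζ : ℂ)⁻¹ with hω
    have hω5 : ω ^ 5 = 1 := by
      rw [hω, inv_pow, ← Units.val_pow_eq_pow_val, hζ, Units.val_one, inv_one]
    have hω1 : ω - 1 ≠ 0 := by
      intro h1
      apply hζ1 1 (by norm_num) (by norm_num)
      have h2 : ω = 1 := by linear_combination h1
      rw [pow_one, ← inv_inj, ← hω, h2, inv_one]
    have hs : ω + ω ^ 2 + ω ^ 3 + ω ^ 4 = -1 := by
      apply mul_left_cancel₀ hω1
      linear_combination hω5
    have h7 : ∀ k ∈ Finset.range (5 - 1), θ (φ ⟨0, gn 5 (k + 1)⟩) * ω ^ (k + 1) =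
        θ x5 * ω ^ (k + 1) := by
      intro j hj
      have := Finset.mem_range.1 hj
      rw [h5u θ hθ _ (gn_ne_one (by omega) (by omega))]
    rw [Finset.sum_congr rfl h7, ← Finset.mul_sum]
    simp only [Nat.reduceSub, Finset.sum_range_succ, Finset.sum_range_zero, zero_add, pow_one]
    linear_combination (θ x5) * hs
  have e2 : ∑ k ∈ Finset.range (8 - 1), θ (φ' ⟨0, gn 8 (k + 1)⟩) * ((ξ : ℂ)⁻¹) ^ (k + 1) =
      - θ y := by
    set ω : ℂ := (ξ : ℂ)⁻¹ with hω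
    have hω8 : ω ^ 8 = 1 := by
      rw [hω, inv_pow, ← Units.val_pow_eq_pow_val, hξ, Units.val_one, inv_one]
    have hω4 : ω ^ 4 = -1 := by
      have h1 : (ω ^ 4 - 1) * (ω ^ 4 + 1) = 0 := by linear_combination hω8
      rcases mul_eq_zero.1 h1 with h2 | h2
      · exfalso
        apply hξ1 4 (by norm_num) (by norm_num)
        have h3 : ω ^ 4 = 1 := by linear_combination h2
        rw [hω, inv_pow, inv_eq_one] at h3
        exact h3
      · linear_combination h2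
    simp only [Nat.reduceSub, Finset.sum_range_succ, Finset.sum_range_zero, zero_add, hwj]
    rw [hodd θ hθ 1 (by decide), hodd θ hθ (2 + 1) (by decide), hodd θ hθ (4 + 1) (by decide),
      hodd θ hθ (6 + 1) (by decide), h6 θ hθ, h4 θ hθ]
    linear_combination (θ w * (ω + ω ^ 3) + θ (w ^ 2) * ω ^ 2 + θ y) * hω4
  rw [e1, e2]
  push_cast
  ring

end

end Pool.Agent.H50.A5
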