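import Pool.Agent.H72.A5.Base

/-!
# Permutation representations with given numbers of fixed points
-/

open Equiv Equiv.Perm
open Pool.Agent.H7.Artin Pool.Agent.H58.S2 Pool.Agent.H72.PM Pool.Agent.H72.E17
open Pool.Agent.H72.A5

namespace Pool.Agent.H50.A5

set_option linter.unusedSectionVars false

/-- There is an action of `B` on `N` points such that `b` has `F b` fixed points. -/
def Real (B : Type) [Group B] (N : ℕ) (F : B → ℕ) : Prop :=
  ∃ (Ω : Type) (_ : Fintype Ω) (_ : DecidableEq Ω) (f : B →* Perm Ω),
    Fintype.card Ω = N ∧ ∀ b, fixn (f b) = F b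

section

variable {B : Type} [Group B]

theorem Real.of {Ω : Type} [Fintype Ω] [DecidableEq Ω] (f : B →* Perm Ω) :
    Real B (Fintype.card Ω) (fun b => fixn (f b)) :=
  ⟨Ω, inferInstance, inferInstance, f, rfl, fun _ => rfl⟩

theorem Real.zero : Real B 0 (fun _ => 0) := by
  refine ⟨Empty, inferInstance, inferInstance, 1, rfl, fun b => ?_⟩
  unfold fixn
  rfl

theorem Real.add {N N' : ℕ} {F F' : B → ℕ} (h : Real B N F) (h' : Real B N' F') :
    Real B (N + N') (fun b => F b + F' b) := by
  obtain ⟨Ω, _, _, f, hN, hF⟩ := h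
  obtain ⟨Ω', _, _, f', hN', hF'⟩ := h'
  refine ⟨Ω ⊕ Ω', inferInstance, inferInstance,
    (sumCongrHom Ω Ω').comp (f.prod f'), ?_, fun b => ?_⟩
  · rw [Fintype.card_sum, hN, hN']
  · change _ = F b + F' b
    rw [← hF, ← hF']
    unfold fixn
    have h1 : (Finset.univ.filter fun x : Ω ⊕ Ω' =>
        ((sumCongrHom Ω Ω').comp (f.prod f')) b x = x) =
        ((Finset.univ.filter fun x : Ω => f b x = x).map ⟨Sum.inl, Sum.inl_injective⟩) ∪
        ((Finset.univ.filter fun x : Ω' => f' b x = x).map ⟨Sum.inr, Sum.inr_injective⟩) := by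
      ext x
      rcases x with x | x
      · simp
      · simp
    rw [h1, Finset.card_union_of_disjoint, Finset.card_map, Finset.card_map]
    rw [Finset.disjoint_left]
    rintro x hx hx'
    obtain ⟨y, -, rfl⟩ := Finset.mem_map.1 hx
    obtain ⟨z, -, hz⟩ := Finset.mem_map.1 hx'
    exact absurd hz (by simp)

theorem Real.nsmul {N : ℕ} {F : B → ℕ} (h : Real B N F) (k : ℕ) :
    Real B (k * N) (fun b => k * F b) := by
  induction k with
  | zero =>
    have h1 : (fun b : B => 0 * F b) = fun _ => 0 := by
      funext b
      rw [zero_mul]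
    rw [h1, zero_mul]
    exact Real.zero
  | succ k ih =>
    have h1 : (fun b : B => (k + 1) * F b) = fun b => k * F b + F b := by
      funext b
      ring
    rw [h1, add_mul, one_mul]
    exact ih.add h

theorem fixn_via {Ω X : Type} [Fintype Ω] [DecidableEq Ω] [Fintype X] [DecidableEq X]
    (e : Ω ↪ X) (s : Perm Ω) :
    fixn (viaEmbeddingHom e s) + Fintype.card Ω = Fintype.card X + fixn s := by
  classical
  unfold fixn
  rw [viaEmbeddingHom_apply]
  have h1 : (Finset.univ.filter fun x : X => s.viaEmbedding e x = x) =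
      ((Finset.univ.filter fun x : Ω => s x = x).map e) ∪ (Finset.univ.map e)ᶜ := by
    ext x
    by_cases hx : x ∈ Set.range e
    · obtain ⟨y, rfl⟩ := hx
      simp [viaEmbedding_apply]
    · simp only [Finset.mem_filter, Finset.mem_univ, true_and, Finset.mem_union, Finset.mem_map,
        Finset.mem_compl]
      constructor
      · intro _
        right
        rintro ⟨y, rfl⟩
        exact hx ⟨y, rfl⟩
      · intro _
        exact viaEmbedding_apply_of_notMem _ _ _ hx
  rw [h1, Finset.card_union_of_disjoint, Finset.card_map, Finset.card_compl, Finset.card_map,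
    Finset.card_univ]
  · have h2 : Fintype.card Ω ≤ Fintype.card X := Fintype.card_le_of_injective e e.injective
    omega
  · rw [Finset.disjoint_left]
    rintro x hx hx'
    obtain ⟨y, -, rfl⟩ := Finset.mem_map.1 hx
    rw [Finset.mem_compl] at hx'
    exact hx' (Finset.mem_map_of_mem e (Finset.mem_univ y))

/-- the action extended to a larger set -/
theorem Real.toPerm {N : ℕ} {F : B → ℕ} (h : Real B N F) (X : Type) [Fintype X] [DecidableEq X]
    (hX : N ≤ Fintype.card X) :
    ∃ φ : B →* Perm X, ∀ b, fixn (φ b) + N = Fintype.card X + F b := by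
  obtain ⟨Ω, _, _, f, hN, hF⟩ := h
  have hemb : Nonempty (Ω ↪ X) := Function.Embedding.nonempty_of_card_le (by omega)
  obtain ⟨e⟩ := hemb
  refine ⟨(viaEmbeddingHom e).comp f, fun b => ?_⟩
  rw [← hN, ← hF]
  exact fixn_via e (f b)

end

section

variable {X : Type} [Fintype X] [DecidableEq X]

theorem card_support_add_fixn (s : Perm X) : s.support.card + fixn s = Fintype.card X := by
  have h3 := Finset.card_filter_add_card_filter_not (s := (Finset.univ : Finset X))
    (fun x => s x = x)
  have h4 : s.support = Finset.univ.filter fun x => ¬ s x = x := by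
    ext x
    simp
  unfold fixn
  rw [h4, add_comm, h3, Finset.card_univ]

/-- the sign of a permutation all of whose nontrivial cycles have the same length -/
theorem sign_unif {s : Perm X} {m N : ℕ} (hs : s ^ m = 1)
    (h : ∀ k, 0 < k → k < m → fixn (s ^ k) = fixn s) (hN : fixn s + m * N = Fintype.card X)
    (hev : Even ((m + 1) * N)) (hm : 0 < m) : sign s = 1 := by
  have hfix : ∀ k, 0 < k → k < m → ∀ x, (s ^ k) x = x → s x = x := by
    intro k hk hkm x hx
    have h1 : (Finset.univ.filter fun x => s x = x) = (Finset.univ.filter fun x => (s ^ k) x = x) := by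
      apply Finset.eq_of_subset_of_card_le
      · intro y
        simp only [Finset.mem_filter, Finset.mem_univ, true_and]
        intro hy
        rw [← Perm.iterate_eq_pow]
        exact Function.IsFixedPt.iterate hy k
      · have := h k hk hkm
        unfold fixn at this
        exact this.le
    have h2 : x ∈ (Finset.univ.filter fun x => s x = x) := by
      rw [h1]
      simpa using hx
    simpa using h2
  have key : s.cycleType = Multiset.replicate (Multiset.card s.cycleType) m := by
    rw [Multiset.eq_replicate]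
    refine ⟨rfl, fun n hn => ?_⟩
    have h1 : n ∣ m := (Equiv.Perm.dvd_of_mem_cycleType hn).trans (orderOf_dvd_of_pow_eq_one hs)
    have h2 : n ≤ m := Nat.le_of_dvd hm h1
    have h3 := one_lt_of_mem_cycleType hn
    by_contra hne
    have h4 : n < m := lt_of_le_of_ne h2 hne
    obtain ⟨c, g, hg, hd, hc, hcn⟩ : ∃ c g : Perm X, s = c * g ∧ c.Disjoint g ∧ c.IsCycle ∧
        c.support.card = n := by
      obtain ⟨c, g, hg, hd, hc, hcn⟩ := mem_cycleType_iff.1 hn
      exact ⟨c, g, hg, hd, hc, hcn⟩
    obtain ⟨x, hx⟩ := hc.nonempty_support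
    have h5 : g x = x := by
      rcases hd x with h6 | h6
      · rw [mem_support] at hx
        exact absurd h6 hx
      · exact h6
    have h6 : s x = c x := by
      rw [hg, Perm.mul_apply, h5]
    have h7 : (s ^ n) x = x := by
      rw [hg, hd.commute.mul_pow, Perm.mul_apply]
      have h8 : (g ^ n) x = x := by
        rw [← Perm.iterate_eq_pow]
        exact Function.IsFixedPt.iterate h5 n
      rw [h8, ← hcn, ← hc.orderOf, pow_orderOf_eq_one]
      rfl
    have h8 := hfix n (by omega) h4 x h7
    rw [h6] at h8
    exact (mem_support.1 hx) h8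
  have h3 : Multiset.card s.cycleType * m = s.support.card := by
    rw [← s.sum_cycleType]
    conv_rhs => rw [key]
    rw [Multiset.sum_replicate, smul_eq_mul]
  have h4 := card_support_add_fixn s
  have h5 : Multiset.card s.cycleType = N := by
    have : Multiset.card s.cycleType * m = N * m := by
      rw [h3, mul_comm N m]
      omega
    exact Nat.eq_of_mul_eq_mul_right hm this
  rw [sign_of_cycleType, key, Multiset.sum_replicate, Multiset.card_replicate, h5, smul_eq_mul]
  have h6 : N * m + N = (m + 1) * N := by ring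
  rw [h6]
  exact hev.neg_one_pow

theorem sign_odd {s : Perm X} {m : ℕ} (hm : Odd m) (hs : s ^ m = 1) : sign s = 1 := by
  have h1 : sign s ^ m = 1 := by rw [← map_pow, hs, map_one]
  rcases Int.units_eq_one_or (sign s) with h | h
  · exact h
  · rw [h, hm.neg_one_pow] at h1
    exact absurd h1 (by decide)

end

section

variable {G X : Type} [Group G] [Fintype G] [Fintype X] [DecidableEq X]
  (τ : G →* Perm X) (hτ : Function.Injective τ) (halt : alternatingGroup X ≤ τ.range)

include hτ halt in
/-- lifting of an action on `N` points to the group `G` -/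
theorem Real.lift {B : Type} [Group B] {N : ℕ} {F : B → ℕ} (h : Real B N F)
    (hX : N ≤ Fintype.card X)
    (hs : ∀ φ : B →* Perm X, (∀ b, fixn (φ b) + N = Fintype.card X + F b) →
      ∀ b, sign (φ b) = 1) :
    ∃ φ : B →* G, ∀ b, fixn (τ (φ b)) + N = Fintype.card X + F b := by
  obtain ⟨φ, hφ⟩ := h.toPerm X hX
  obtain ⟨f, hf⟩ := exists_lift τ hτ halt φ (hs φ hφ)
  exact ⟨f, fun b => by rw [hf]; exact hφ b⟩

include hτ halt in
/-- injectivity of the lift -/
theorem lift_inj {B : Type} [Group B] {N : ℕ} {F : B → ℕ} (φ : B →* G)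
    (hφ : ∀ b, fixn (τ (φ b)) + N = Fintype.card X + F b) (hF : ∀ b, b ≠ 1 → F b < N) :
    Function.Injective φ := by
  rw [injective_iff_map_eq_one]
  intro b hb
  by_contra hne
  have h1 := hφ b
  rw [hb, map_one, fixn_one] at h1
  have h2 := hF b hne
  omega

end

end Pool.Agent.H50.A5
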