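import Pool.Agent.H50.A5.Dih

/-!
# The groups `2^4 : S_3` and `4^2 : 2`
-/

open Equiv Equiv.Perm
open Pool.Agent.H7.Artin Pool.Agent.H58.S2 Pool.Agent.H72.PM Pool.Agent.H72.E17
open Pool.Agent.H72.A5

namespace Pool.Agent.H50.A5

set_option linter.unusedSectionVars false

/-- product action -/
theorem Real.mul {B : Type} [Group B] {N N' : ℕ} {F F' : B → ℕ} (h : Real B N F)
    (h' : Real B N' F') : Real B (N * N') (fun b => F b * F' b) := by
  obtain ⟨Ω, _, _, f, hN, hF⟩ := h
  obtain ⟨Ω', _, _, f', hN', hF'⟩ := h'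
  let P : B →* Perm (Ω × Ω') :=
    { toFun := fun b => Equiv.prodCongr (f b) (f' b)
      map_one' := by
        ext x
        · simp
        · simp
      map_mul' := fun a b => by
        ext x
        · simp
        · simp }
  refine ⟨Ω × Ω', inferInstance, inferInstance, P, ?_, fun b => ?_⟩
  · rw [Fintype.card_prod, hN, hN']
  · change _ = F b * F' b
    rw [← hF, ← hF']
    unfold fixn
    rw [← Finset.card_product]
    congr 1
    ext x
    simp only [Finset.mem_filter, Finset.mem_univ, true_and, Finset.mem_product]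
    exact Prod.ext_iff

/-- the plane over the field with two elements -/
abbrev W : Type := ZMod 2 × ZMod 2

/-- the function on three points with sum zero -/
def extW (w : W) (i : Fin 3) : ZMod 2 := ![w.1, w.2, w.1 + w.2] i

/-- the action of `S_3` -/
def sW (s : Perm (Fin 3)) (w : W) : W := (extW w (s⁻¹ 0), extW w (s⁻¹ 1))

theorem extW_sW : ∀ (s : Perm (Fin 3)) (w : W) (i : Fin 3), extW (sW s w) i = extW w (s⁻¹ i) := by
  decide +kernel

theorem sW_add : ∀ (s : Perm (Fin 3)) (w w' : W), sW s (w + w') = sW s w + sW s w' := by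
  decide +kernel

/-- the action of `S_3` on the plane -/
def chiW : Perm (Fin 3) →* AddMonoid.End W where
  toFun s := AddMonoidHom.mk' (sW s) (sW_add s)
  map_one' := by
    ext w <;> rfl
  map_mul' s t := by
    refine AddMonoidHom.ext fun w => ?_
    change (extW w ((s * t)⁻¹ 0), extW w ((s * t)⁻¹ 1)) =
      (extW (sW t w) (s⁻¹ 0), extW (sW t w) (s⁻¹ 1))
    rw [extW_sW, extW_sW, mul_inv_rev]
    rfl

/-- two copies of an action -/
def chi2 {U V : Type} [Group U] [AddCommGroup V] (χ : U →* AddMonoid.End V) :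
    U →* AddMonoid.End (V × V) where
  toFun u := AddMonoidHom.prodMap (χ u) (χ u)
  map_one' := by
    refine AddMonoidHom.ext fun w => ?_
    change (χ 1 w.1, χ 1 w.2) = w
    rw [Af.chi_one, Af.chi_one]
  map_mul' s t := by
    refine AddMonoidHom.ext fun w => ?_
    change (χ (s * t) w.1, χ (s * t) w.2) = (χ s (χ t w.1), χ s (χ t w.2))
    rw [Af.chi_mul, Af.chi_mul]

/-! ### Numbers of fixed points for `2^4 : S_3` -/

/-- fixed points of an affine map of the plane -/
def fW (u : W) (s : Perm (Fin 3)) : ℕ := (Finset.univ.filter fun x : W => u + sW s x = x).card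

/-- fixed points on three points -/
def f3 (s : Perm (Fin 3)) : ℕ := (Finset.univ.filter fun x : Fin 3 => s x = x).card

/-- fixed points on two points -/
def f2 (s : Perm (Fin 3)) : ℕ := if sign s = 1 then 2 else 0

/-- the group `2^4 : S_3` -/
abbrev BG : Type := Af (chi2 chiW)

/-- the class of an element -/
def clB (x : (W × W) × Perm (Fin 3)) : Fin 5 :=
  if x.2 = 1 then (if x.1 = 0 then 0 else 1) else
    if sign x.2 = 1 then 2 else if fW x.1.1 x.2 * fW x.1.2 x.2 = 4 then 3 else 4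

/-- the product of two elements -/
def mulB (x y : (W × W) × Perm (Fin 3)) : (W × W) × Perm (Fin 3) :=
  ((x.1.1 + sW x.2 y.1.1, x.1.2 + sW x.2 y.1.2), x.2 * y.2)

theorem clB_card : ∀ c : Fin 5,
    (Finset.univ.filter fun x : (W × W) × Perm (Fin 3) => clB x = c).card =
      ![1, 15, 32, 12, 36] c := by
  decide +kernel

theorem clB_zero : ∀ x, clB x = 0 → x = ((0, 0), 1) := by
  decide +kernel

theorem clB_one : ∀ x, clB x = 1 → fW x.1.1 x.2 * fW x.1.2 x.2 = 0 ∧ f2 x.2 = 2 ∧ f3 x.2 = 3 ∧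
    mulB x x = ((0, 0), 1) ∧ sign x.2 = 1 := by
  decide +kernel

theorem clB_two : ∀ x, clB x = 2 → fW x.1.1 x.2 * fW x.1.2 x.2 = 1 ∧ f2 x.2 = 2 ∧ f3 x.2 = 0 ∧
    mulB (mulB x x) x = ((0, 0), 1) ∧ sign x.2 = 1 := by
  decide +kernel

theorem clB_three : ∀ x, clB x = 3 → fW x.1.1 x.2 * fW x.1.2 x.2 = 4 ∧ f2 x.2 = 0 ∧ f3 x.2 = 1 ∧
    mulB x x = ((0, 0), 1) ∧ sign x.2 = -1 := by
  decide +kernel

theorem clB_four : ∀ x, clB x = 4 → fW x.1.1 x.2 * fW x.1.2 x.2 = 0 ∧ f2 x.2 = 0 ∧ f3 x.2 = 1 ∧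
    clB (mulB x x) = 1 ∧ sign x.2 = -1 := by
  decide +kernel

/-- elements of the last class are products of involutions -/
theorem clB_gen : ∀ x, clB x = 4 → x = mulB (x.1, 1) ((0, 0), x.2) ∧
    clB (x.1, 1) = 1 ∧ clB ((0, 0), x.2) = 3 := by
  decide +kernel

/-- the element of the group -/
def toB (x : (W × W) × Perm (Fin 3)) : BG := ⟨x.1, x.2⟩

theorem toB_mul (x y : (W × W) × Perm (Fin 3)) : toB (mulB x y) = toB x * toB y := rfl

theorem toB_one : toB ((0, 0), 1) = 1 := rfl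

theorem card_three (c : Fin 5) (h : c ≠ 0) (h1 : c ≠ 1) (h2 : c ≠ 2) (h3 : c ≠ 3) : c = 4 := by
  omega

/-- the numbers of fixed points of an action of `2^4 : S_3` -/
theorem real_B (k α γ i j : ℕ) :
    Real BG (16 * (k + 2 * α + 3 * γ) + 3 * j + 2 * i) (fun b =>
      (fW b.v.1 b.u * fW b.v.2 b.u) * (k + α * f2 b.u + γ * f3 b.u) + j * f3 b.u + i * f2 b.u) := by
  have h1 : Real BG 4 (fun b => fW b.v.1 b.u) :=
    (Real.of (Af.act chiW (AddMonoidHom.fst W W) (χ := chi2 chiW) (fun _ _ => rfl))).congr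
      (by rfl) fun b => rfl
  have h2 : Real BG 4 (fun b => fW b.v.2 b.u) :=
    (Real.of (Af.act chiW (AddMonoidHom.snd W W) (χ := chi2 chiW) (fun _ _ => rfl))).congr
      (by rfl) fun b => rfl
  have h3 : Real BG 3 (fun b => f3 b.u) :=
    (Real.of (Ω := Fin 3) (Af.right (chi2 chiW))).congr (by rfl) fun b => rfl
  have h4 : Real BG 2 (fun b => f2 b.u) := by
    refine (Real.of ((MulAction.toPermHom ℤˣ ℤˣ).comp
      ((sign (α := Fin 3)).comp (Af.right (chi2 chiW))))).congr (by rfl) fun b => ?_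
    unfold fixn f2
    have h5 : ∀ x : ℤˣ, ((MulAction.toPermHom ℤˣ ℤˣ).comp
      ((sign (α := Fin 3)).comp (Af.right (chi2 chiW)))) b x = x ↔ sign b.u = 1 := by
      intro x
      change sign b.u * x = x ↔ _
      exact mul_eq_right
    simp only [h5]
    split_ifs with h
    · rw [Finset.filter_true_of_mem (fun _ _ => h), Finset.card_univ]
      rfl
    · rw [Finset.filter_false_of_mem (fun _ _ => h), Finset.card_empty]
  have h5 := h1.mul h2
  refine ((((h5.nsmul k).add ((h5.mul h4).nsmul α)).add ((h5.mul h3).nsmul γ)).add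
    (h3.nsmul j)).add (h4.nsmul i) |>.congr (by ring) fun b => by ring

/-! ### The group `4^2 : 2` -/

/-- the cyclic group of order four -/
abbrev Z4 : Type := ZMod 4

/-- the group of order two -/
abbrev U2 : Type := Multiplicative (ZMod 2)

/-- the action -/
def s4 (u : U2) (x : Z4) : Z4 := if u = 1 then x else -x

theorem s4_add : ∀ (u : U2) (x y : Z4), s4 u (x + y) = s4 u x + s4 u y := by
  decide +kernel

theorem s4_mul : ∀ (u u' : U2) (x : Z4), s4 (u * u') x = s4 u (s4 u' x) := by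
  decide +kernel

/-- the action of the group of order two by inversion -/
def chi4 : U2 →* AddMonoid.End Z4 where
  toFun u := AddMonoidHom.mk' (s4 u) (s4_add u)
  map_one' := by
    refine AddMonoidHom.ext fun x => ?_
    rfl
  map_mul' u u' := AddMonoidHom.ext (s4_mul u u')

/-- the group `4^2 : 2` -/
abbrev DG : Type := Af (chi2 chi4)

/-- the cocycle -/
def coc (c : Z4) (u : U2) : Z4 := if u = 1 then 0 else c

theorem coc_mul : ∀ (c : Z4) (u u' : U2), coc c (u * u') = coc c u + s4 u (coc c u') := by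
  decide +kernel

/-- the shift of the group -/
def shiftD (c : Z4 × Z4) : DG →* DG where
  toFun b := ⟨(b.v.1 + coc c.1 b.u, b.v.2 + coc c.2 b.u), b.u⟩
  map_one' := by
    refine Af.ext ?_ rfl
    change ((0 : Z4) + coc c.1 1, (0 : Z4) + coc c.2 1) = (0, 0)
    have h : ∀ c : Z4, (0 : Z4) + coc c 1 = 0 := by decide
    rw [h, h]
  map_mul' a b := by
    refine Af.ext ?_ rfl
    change (a.v.1 + s4 a.u b.v.1 + coc c.1 (a.u * b.u), a.v.2 + s4 a.u b.v.2 + coc c.2 (a.u * b.u)) =
      (a.v.1 + coc c.1 a.u + s4 a.u (b.v.1 + coc c.1 b.u),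
        a.v.2 + coc c.2 a.u + s4 a.u (b.v.2 + coc c.2 b.u))
    rw [coc_mul, coc_mul, s4_add, s4_add]
    congr 1 <;> abel

/-- fixed points on the cyclic group of order four -/
def q4 (c x : Z4) (u : U2) : ℕ :=
  (Finset.univ.filter fun y : Z4 => x + coc c u + s4 u y = y).card

/-- fixed points on two points -/
def r4 (x : Z4) : ℕ := (Finset.univ.filter fun y : ZMod 2 => (x.val : ZMod 2) + y = y).card

/-- fixed points on two points -/
def g2 (u : U2) : ℕ := if u = 1 then 2 else 0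

/-- the number of fixed points on the 52 points -/
def FD (x : (Z4 × Z4) × U2) : ℕ :=
  q4 1 x.1.1 x.2 * q4 0 x.1.2 x.2 + q4 0 x.1.1 x.2 * q4 1 x.1.2 x.2 +
    q4 1 x.1.1 x.2 * q4 1 x.1.2 x.2 + r4 x.1.1 * r4 x.1.2

/-- the number of fixed points on the 32 points -/
def FR (x : (Z4 × Z4) × U2) : ℕ := q4 0 x.1.1 x.2 * q4 0 x.1.2 x.2 * g2 x.2

/-- the product -/
def mulD (x y : (Z4 × Z4) × U2) : (Z4 × Z4) × U2 :=
  ((x.1.1 + s4 x.2 y.1.1, x.1.2 + s4 x.2 y.1.2), x.2 * y.2)

/-- the class -/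
def clD (x : (Z4 × Z4) × U2) : Fin 4 :=
  if x.2 = 1 then (if x.1 = 0 then 0 else if x.1 + x.1 = 0 then 1 else 3) else 2

theorem clD_card : ∀ c : Fin 4,
    (Finset.univ.filter fun x : (Z4 × Z4) × U2 => clD x = c).card = ![1, 3, 16, 12] c := by
  decide +kernel

theorem clD_zero : ∀ x, clD x = 0 → x = ((0, 0), 1) := by
  decide +kernel

theorem clD_one : ∀ x, clD x = 1 → FD x = 4 ∧ FR x = 0 ∧ mulD x x = ((0, 0), 1) ∧ x.2 = 1 := by
  decide +kernel

theorem clD_two : ∀ x, clD x = 2 → FD x = 4 ∧ FR x = 0 ∧ mulD x x = ((0, 0), 1) ∧ x.2 ≠ 1 := by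
  decide +kernel

theorem clD_three : ∀ x, clD x = 3 → FD x = 0 ∧ FR x = 0 ∧ clD (mulD x x) = 1 ∧ x.2 = 1 := by
  decide +kernel

/-- elements of the last class are products of reflections -/
theorem clD_gen : ∀ x, clD x = 3 → x = mulD (x.1, gn 2 1) ((0, 0), gn 2 1) ∧
    clD (x.1, gn 2 1) = 2 ∧ clD ((0, 0), gn 2 1) = 2 := by
  decide +kernel

/-- the element of the group -/
def toD (x : (Z4 × Z4) × U2) : DG := ⟨x.1, x.2⟩

theorem toD_mul (x y : (Z4 × Z4) × U2) : toD (mulD x y) = toD x * toD y := rfl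

theorem toD_one : toD ((0, 0), 1) = 1 := rfl

theorem real_q1 (c : Z4) : Real DG 4 (fun b => q4 c b.v.1 b.u) := by
  refine ((Real.of (Af.act chi4 (AddMonoidHom.fst Z4 Z4) (χ := chi2 chi4)
    (fun _ _ => rfl))).comap (shiftD (c, 0))).congr (by rfl) fun b => ?_
  rfl

theorem real_q2 (c : Z4) : Real DG 4 (fun b => q4 c b.v.2 b.u) := by
  refine ((Real.of (Af.act chi4 (AddMonoidHom.snd Z4 Z4) (χ := chi2 chi4)
    (fun _ _ => rfl))).comap (shiftD (0, c))).congr (by rfl) fun b => ?_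
  rfl

/-- reduction modulo two -/
def red : Z4 →+ ZMod 2 := AddMonoidHom.mk' (fun x => (x.val : ZMod 2)) (by decide +kernel)

theorem red_s4 : ∀ (u : U2) (x : Z4), ((s4 u x).val : ZMod 2) = (x.val : ZMod 2) := by
  decide +kernel

theorem real_r1 : Real DG 2 (fun b => r4 b.v.1) :=
  (Real.of (Af.act (1 : U2 →* AddMonoid.End (ZMod 2)) (red.comp (AddMonoidHom.fst Z4 Z4))
    (χ := chi2 chi4) (fun u x => red_s4 u x.1))).congr (by rfl) fun b => rfl

theorem real_r2 : Real DG 2 (fun b => r4 b.v.2) :=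
  (Real.of (Af.act (1 : U2 →* AddMonoid.End (ZMod 2)) (red.comp (AddMonoidHom.snd Z4 Z4))
    (χ := chi2 chi4) (fun u x => red_s4 u x.2))).congr (by rfl) fun b => rfl

theorem real_g2 : Real DG 2 (fun b => g2 b.u) := by
  refine (Real.of ((MulAction.toPermHom U2 U2).comp (Af.right (chi2 chi4)))).congr (by rfl)
    fun b => ?_
  unfold fixn g2
  have h5 : ∀ x : U2, ((MulAction.toPermHom U2 U2).comp (Af.right (chi2 chi4))) b x = x ↔
      b.u = 1 := by
    intro x
    change b.u * x = x ↔ _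
    exact mul_eq_right
  simp only [h5]
  split_ifs with h
  · rw [Finset.filter_true_of_mem (fun _ _ => h), Finset.card_univ]
    rfl
  · rw [Finset.filter_false_of_mem (fun _ _ => h), Finset.card_empty]

/-- the numbers of fixed points of an action of `4^2 : 2` -/
theorem real_D (ν δ : ℕ) :
    Real DG (52 * ν + 32 * δ) (fun b => ν * FD (b.v, b.u) + δ * FR (b.v, b.u)) := by
  have h1 := ((((real_q1 1).mul (real_q2 0)).add ((real_q1 0).mul (real_q2 1))).add
    ((real_q1 1).mul (real_q2 1))).add (real_r1.mul real_r2)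
  have h2 := ((real_q1 0).mul (real_q2 0)).mul real_g2
  exact ((h1.nsmul ν).add (h2.nsmul δ)).congr (by ring) fun b => rfl

end Pool.Agent.H50.A5
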