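import Pool.Agent.H50.A5.Dih

/-!
# The second identity
-/

open Equiv Equiv.Perm
open Pool.Agent.H7.Artin Pool.Agent.H58.S2 Pool.Agent.H72.PM Pool.Agent.H72.E17
open Pool.Agent.H72.A5

namespace Pool.Agent.H50.A5

set_option linter.unusedSectionVars false

/-- the character of order two of the dihedral group, and its value -/
theorem piece_dih {G : Type} [Group G] [Fintype G] (φ : Af (chiN (ZMod 15)) →* G)
    (hφ : Function.Injective φ) :
    MonoSum G (fun θ => (30 : ℂ)⁻¹ * (∑ k ∈ Finset.range 15, θ (φ ⟨(k : ZMod 15), 1⟩) -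
      15 * θ (φ ⟨0, gn 2 1⟩))) := by
  have hζ : (-1 : ℂˣ) ^ 2 = 1 := by rw [sq, neg_one_mul, neg_neg]
  refine (MonoSum.piece φ hφ ((powH 2 (-1 : ℂˣ) hζ).comp (Af.right _))).congr fun θ hθ => ?_
  have h1 := Af.sum_af' (fun b => θ (φ b)) (powH 2 (-1 : ℂˣ) hζ) (fun u => θ (φ ⟨0, u⟩))
    (fun v u hu => class_af φ (chiN_free (neg_eq_self_zmod (by decide))) hθ v u hu)
  rw [h1, Af.card_eq, ZMod.card, sum_erase_gn, sum_zmod]
  have h2 : Fintype.card (Multiplicative (ZMod 2)) = 2 := by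
    rw [Fintype.card_multiplicative, ZMod.card]
  rw [h2]
  simp only [Nat.reduceSub, Finset.sum_range_one, zero_add, powH_gn, pow_one]
  have h3 : (((-1 : ℂˣ)⁻¹ : ℂˣ) : ℂ) = -1 := by
    rw [inv_neg_one, Units.val_neg, Units.val_one]
  rw [h3]
  push_cast
  norm_num
  ring

theorem mem_cop {k : ℕ} (hk : k < 15) (h3 : ¬ 3 ∣ k) (h5 : ¬ 5 ∣ k) : Nat.Coprime k 15 := by
  interval_cases k <;> first | omega | decide

section

variable {G X : Type} [Group G] [Fintype G] [Fintype X] [DecidableEq X]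
  (τ : G →* Perm X) (hτ : Function.Injective τ) (halt : alternatingGroup X ≤ τ.range)

theorem OddCent.pow {s : Perm X} (h : OddCent s) (k : ℕ) : OddCent (s ^ k) := by
  obtain ⟨c, hc, hcs⟩ := h
  exact ⟨c, hc, (show Commute c s from hcs).pow_right k⟩

include hτ halt in
/-- **Second identity.** -/
theorem four_II {a b Z : ℕ} (ha : 3 * Z ≤ a) (hb : 5 * Z ≤ b) (hab : 2 * a + b ≤ 12 * Z)
    (hZ : 1 ≤ Z) (hX1 : 5 * a + 3 * b ≤ Fintype.card X + 14 * Z)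
    (hX2 : a + b + 9 * Z ≤ Fintype.card X) (hX3 : 5 * a + 3 * b + 2 ≤ Fintype.card X + 15 * Z)
    {x3 x5 : G} (h3 : x3 ^ 3 = 1) (hx3 : fixn (τ x3) + 3 * b = Fintype.card X)
    (h5 : x5 ^ 5 = 1) (hx5 : fixn (τ x5) + 5 * a = Fintype.card X) :
    MonoSum G (fun θ => (60 : ℂ)⁻¹ * (4 * θ 1 + 20 * θ x3 - 24 * θ x5)) := by
  classical
  obtain ⟨F, _, _, _, hF, hF2⟩ := exists_field16
  obtain ⟨g, hg⟩ := exists_orderOf F (m := 15) (by rw [hF])
  have hg1 : g ^ 15 = 1 := by rw [← hg, pow_orderOf_eq_one]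
  -- the group 2^4 : 15
  obtain ⟨F5, hF5, hF5a, hF5b⟩ := Real.cyc 15 5 (by norm_num)
  obtain ⟨F3, hF3, hF3a, hF3b⟩ := Real.cyc 15 3 (by norm_num)
  have hF5c : ∀ u, F5 u ≤ 5 := by
    intro u
    obtain ⟨j, -, rfl⟩ := exists_gn u
    rw [hF5b]
    split_ifs
    · exact le_refl 5
    · norm_num
  have hF3c : ∀ u, F3 u ≤ 3 := by
    intro u
    obtain ⟨j, -, rfl⟩ := exists_gn u
    rw [hF3b]
    split_ifs
    · exact le_refl 3
    · norm_num
  obtain ⟨φ, hφ, hφv, hφu⟩ := exists_affine τ hτ halt hg1 hg hF hF2 hZ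
    ((hF5.nsmul (a - 3 * Z)).add (hF3.nsmul (b - 5 * Z))) (by rw [hF5a, hF3a])
    (fun u hu => by
      have h1 := Nat.mul_le_mul_left (a - 3 * Z) (hF5c u)
      have h2 := Nat.mul_le_mul_left (b - 5 * Z) (hF3c u)
      generalize (a - 3 * Z) * F5 u = A at h1
      generalize (b - 5 * Z) * F3 u = B at h2
      omega) (by omega)
    (fun s hs hs1 => by
      refine sign_unif (N := 8 * Z) hs ?_ ?_ ?_ (by norm_num)
      · intro j hj0 hj
        have : j = 1 := by omega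
        rw [this, pow_one]
      · omega
      · exact ⟨3 * (4 * Z), by ring⟩)
    (fun s hs _ => sign_odd (by decide) hs)
  -- the dihedral group
  obtain ⟨φ', hφ', hφv', hφu'⟩ := exists_dih τ hτ halt ha hb hab hZ hX2
  -- the involution
  set y : G := φ ⟨1, 1⟩ with hy
  have hy2 : y ^ 2 = 1 := by
    rw [hy, ← map_pow, Af.mk_pow_one, hF2]
    have h1 : (⟨0, 1⟩ : Af (chiF F 15 g hg1)) = 1 := rfl
    rw [h1, map_one]
  have hyf : fixn (τ y) + Z * 16 = Fintype.card X := hφv 1 one_ne_zero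
  have hyv : ∀ θ : G → ℂ, IsClass θ → ∀ v, v ≠ 0 → θ (φ ⟨v, 1⟩) = θ y := by
    intro θ hθ v hv
    have h1 := hφv v hv
    have h4 : (φ ⟨v, 1⟩) ^ 2 = 1 := by
      rw [← map_pow, Af.mk_pow_one, hF2]
      have h1 : (⟨0, 1⟩ : Af (chiF F 15 g hg1)) = 1 := rfl
      rw [h1, map_one]
    exact class_eq_of_prime τ hτ halt Nat.prime_two h4 hy2 (by omega)
      (oddCent_of_prime Nat.prime_two (by rw [← map_pow, h4, map_one]) (by omega)) hθ
  have hyr : ∀ θ : G → ℂ, IsClass θ → θ (φ' ⟨0, gn 2 1⟩) = θ y := by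
    intro θ hθ
    have h4 : (φ' ⟨0, gn 2 1⟩) ^ 2 = 1 := by
      rw [← map_pow, Af.mk_pow_zero]
      have h3 : gn 2 1 ^ 2 = 1 := by
        rw [← gn_pow]
        rfl
      rw [h3]
      have h1 : (⟨0, 1⟩ : Af (chiN (ZMod 15))) = 1 := rfl
      rw [h1, map_one]
    exact class_eq_of_prime τ hτ halt Nat.prime_two h4 hy2 (by omega)
      (oddCent_of_prime Nat.prime_two (by rw [← map_pow, h4, map_one]) (by omega)) hθ
  -- the element of order fifteen
  set w : G := φ ⟨0, gn 15 1⟩ with hw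
  have hw15 : w ^ 15 = 1 := by
    rw [hw, ← map_pow, Af.mk_pow_zero]
    have h4 : gn 15 1 ^ 15 = 1 := by
      rw [← gn_pow]
      rfl
    rw [h4]
    have h1 : (⟨0, 1⟩ : Af (chiF F 15 g hg1)) = 1 := rfl
    rw [h1, map_one]
  have hwj : ∀ j, φ ⟨0, gn 15 j⟩ = w ^ j := by
    intro j
    rw [hw, ← map_pow, Af.mk_pow_zero, ← gn_pow]
  have hgn : ∀ j, ¬ 15 ∣ j → gn 15 j ≠ 1 := by
    intro j hj h1
    apply hj
    rw [← ZMod.natCast_eq_zero_iff]
    exact h1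
  have hwf : ∀ j, ¬ 15 ∣ j → fixn (τ (w ^ j)) + (5 * a + 3 * b) =
      Fintype.card X + 15 * Z + ((a - 3 * Z) * (if 5 ∣ j then 5 else 0) +
        (b - 5 * Z) * (if 3 ∣ j then 3 else 0)) := by
    intro j hj
    have h1 := hφu _ (hgn j hj)
    rw [hF5b, hF3b, hwj] at h1
    generalize (a - 3 * Z) * (if 5 ∣ j then 5 else 0) = A at h1 ⊢
    generalize (b - 5 * Z) * (if 3 ∣ j then 3 else 0) = B at h1 ⊢
    omega
  have hw2 : OddCent (τ w) := by
    apply oddCent_of_fixn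
    have h1 := hwf 1 (by norm_num)
    rw [if_neg (by norm_num), if_neg (by norm_num), pow_one] at h1
    omega
  set w' : G := φ' ⟨1, 1⟩ with hw'
  have hwj' : ∀ j : ℕ, φ' ⟨(j : ZMod 15), 1⟩ = w' ^ j := by
    intro j
    rw [hw', ← map_pow, Af.mk_pow_one, nsmul_eq_mul, mul_one]
  have hwf' : ∀ j, ¬ 15 ∣ j → fixn (τ (w' ^ j)) + (5 * a + 3 * b) =
      Fintype.card X + 15 * Z + ((a - 3 * Z) * (if 5 ∣ j then 5 else 0) +
        (b - 5 * Z) * (if 3 ∣ j then 3 else 0)) := by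
    intro j hj
    have h1 := hφv' j
    rw [hwj', if_neg hj] at h1
    generalize (a - 3 * Z) * (if 5 ∣ j then 5 else 0) = A at h1 ⊢
    generalize (b - 5 * Z) * (if 3 ∣ j then 3 else 0) = B at h1 ⊢
    omega
  have hw15' : w' ^ 15 = 1 := by
    rw [← hwj']
    have h1 : (⟨((15 : ℕ) : ZMod 15), 1⟩ : Af (chiN (ZMod 15))) = 1 := rfl
    rw [h1, map_one]
  have hfix : ∀ j, fixn (τ (w' ^ j)) = fixn (τ (w ^ j)) := by
    intro j
    by_cases hj : 15 ∣ j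
    · obtain ⟨i, rfl⟩ := hj
      rw [pow_mul, pow_mul, hw15, hw15']
    · have h1 := hwf j hj
      have h2 := hwf' j hj
      omega
  have hww : ∀ θ : G → ℂ, IsClass θ → ∀ j, θ (w' ^ j) = θ (w ^ j) := by
    intro θ hθ j
    symm
    refine class_eq_of_fixn τ hτ halt (fun i _ _ => ?_) ?_ hθ
    · have h1 : τ (w ^ j) ^ i = τ (w ^ (j * i)) := by rw [pow_mul, map_pow τ (w ^ j) i]
      have h2 : τ (w' ^ j) ^ i = τ (w' ^ (j * i)) := by rw [pow_mul, map_pow τ (w' ^ j) i]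
      rw [h1, h2, hfix]
    · rw [map_pow]
      exact OddCent.pow hw2 j
  -- the values at the powers of w
  have hcop : ∀ θ : G → ℂ, IsClass θ → ∀ j, Nat.Coprime j 15 → θ (w ^ j) = θ w := by
    intro θ hθ j hj
    exact class_eq_pow τ hτ halt
      (Nat.Coprime.coprime_dvd_right (orderOf_dvd_of_pow_eq_one hw15) hj) hw2 hθ
  have hth : ∀ θ : G → ℂ, IsClass θ → ∀ j, 3 ∣ j → ¬ 15 ∣ j → θ (w ^ j) = θ x5 := by
    intro θ hθ j hj3 hj
    have h1 := hwf j hj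
    have h2 : ¬ 5 ∣ j := by omega
    rw [if_neg h2, if_pos hj3] at h1
    have h4 : (w ^ j) ^ 5 = 1 := by
      obtain ⟨i, rfl⟩ := hj3
      rw [← pow_mul]
      have h5 : 3 * i * 5 = 15 * i := by ring
      rw [h5, pow_mul, hw15, one_pow]
    exact class_eq_of_prime τ hτ halt Nat.prime_five h4 h5 (by omega)
      (oddCent_of_prime Nat.prime_five (by rw [← map_pow, h4, map_one]) (by omega)) hθ
  have hfi : ∀ θ : G → ℂ, IsClass θ → ∀ j, 5 ∣ j → ¬ 15 ∣ j → θ (w ^ j) = θ x3 := by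
    intro θ hθ j hj5 hj
    have h1 := hwf j hj
    have h2 : ¬ 3 ∣ j := by omega
    rw [if_neg h2, if_pos hj5] at h1
    have h4 : (w ^ j) ^ 3 = 1 := by
      obtain ⟨i, rfl⟩ := hj5
      rw [← pow_mul]
      have h5 : 5 * i * 3 = 15 * i := by ring
      rw [h5, pow_mul, hw15, one_pow]
    exact class_eq_of_prime τ hτ halt Nat.prime_three h4 h3 (by omega)
      (oddCent_of_prime Nat.prime_three (by rw [← map_pow, h4, map_one]) (by omega)) hθ
  -- sums over the powers of w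
  have hsum : ∀ θ : G → ℂ, IsClass θ → ∀ ω : ℂ,
      ∑ k ∈ Finset.range (15 - 1), θ (φ ⟨0, gn 15 (k + 1)⟩) * ω ^ (k + 1) =
        θ w * (ω + ω ^ 2 + ω ^ 4 + ω ^ 7 + ω ^ 8 + ω ^ 11 + ω ^ 13 + ω ^ 14) +
        θ x5 * (ω ^ 3 + ω ^ 6 + ω ^ 9 + ω ^ 12) + θ x3 * (ω ^ 5 + ω ^ 10) := by
    intro θ hθ ω
    simp only [Nat.reduceSub, Finset.sum_range_succ, Finset.sum_range_zero, zero_add, hwj]
    rw [hcop θ hθ 1 (by decide), hcop θ hθ (1 + 1) (by decide), hth θ hθ (2 + 1) (by decide)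
      (by decide), hcop θ hθ (3 + 1) (by decide), hfi θ hθ (4 + 1) (by decide) (by decide),
      hth θ hθ (5 + 1) (by decide) (by decide), hcop θ hθ (6 + 1) (by decide),
      hcop θ hθ (7 + 1) (by decide), hth θ hθ (8 + 1) (by decide) (by decide),
      hfi θ hθ (9 + 1) (by decide) (by decide), hcop θ hθ (10 + 1) (by decide),
      hth θ hθ (11 + 1) (by decide) (by decide), hcop θ hθ (12 + 1) (by decide),
      hcop θ hθ (13 + 1) (by decide)]
    ring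
  -- roots of unity
  obtain ⟨ζ, hζ, hζ1⟩ := exists_zeta 15 (by norm_num)
  obtain ⟨ξ, hξ, hξ1⟩ := exists_zeta 5 (by norm_num)
  have hξ15 : ξ ^ 15 = 1 := by
    have h1 : ξ ^ 15 = (ξ ^ 5) ^ 3 := by rw [← pow_mul]
    rw [h1, hξ, one_pow]
  have hP := (piece_affine (fun u hu x hx => chiF_free hg1 hg hu x hx) hF φ hφ hζ hyv).nsmul 4
  have hP' := (piece_affine (fun u hu x hx => chiF_free hg1 hg hu x hx) hF φ hφ hξ15 hyv).nsmul 4
  have hP'' := piece_dih φ' hφ'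
  refine ((hP.add hP').add hP'').congr fun θ hθ => ?_
  have e1 : ∑ k ∈ Finset.range (15 - 1), θ (φ ⟨0, gn 15 (k + 1)⟩) * ((ζ : ℂ)⁻¹) ^ (k + 1) =
      θ w - θ x5 - θ x3 := by
    rw [hsum θ hθ]
    set ω : ℂ := (ζ : ℂ)⁻¹ with hω
    have hω15 : ω ^ 15 = 1 := by
      rw [hω, inv_pow, ← Units.val_pow_eq_pow_val, hζ, Units.val_one, inv_one]
    have hne : ∀ k, 0 < k → k < 15 → ω ^ k - 1 ≠ 0 := by
      intro k hk0 hk h1
      apply hζ1 k hk0 hk
      have h2 : ω ^ k = 1 := by linear_combination h1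
      rw [hω, inv_pow, inv_eq_one] at h2
      exact h2
    have s5 : ω ^ 3 + ω ^ 6 + ω ^ 9 + ω ^ 12 = -1 := by
      apply mul_left_cancel₀ (hne 3 (by norm_num) (by norm_num))
      linear_combination hω15
    have s3 : ω ^ 5 + ω ^ 10 = -1 := by
      apply mul_left_cancel₀ (hne 5 (by norm_num) (by norm_num))
      linear_combination hω15
    have s1 : ω + ω ^ 2 + ω ^ 4 + ω ^ 7 + ω ^ 8 + ω ^ 11 + ω ^ 13 + ω ^ 14 = 1 := by
      have h6 : ω + ω ^ 2 + ω ^ 3 + ω ^ 4 + ω ^ 5 + ω ^ 6 + ω ^ 7 + ω ^ 8 + ω ^ 9 + ω ^ 10 +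
          ω ^ 11 + ω ^ 12 + ω ^ 13 + ω ^ 14 = -1 := by
        have h7 := hne 1 (by norm_num) (by norm_num)
        rw [pow_one] at h7
        apply mul_left_cancel₀ h7
        linear_combination hω15
      linear_combination h6 - s5 - s3
    linear_combination (θ w) * s1 + (θ x5) * s5 + (θ x3) * s3
  have e2 : ∑ k ∈ Finset.range (15 - 1), θ (φ ⟨0, gn 15 (k + 1)⟩) * ((ξ : ℂ)⁻¹) ^ (k + 1) =
      -2 * θ w - θ x5 + 2 * θ x3 := by
    rw [hsum θ hθ]
    set ω : ℂ := (ξ : ℂ)⁻¹ with hω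
    have hω5 : ω ^ 5 = 1 := by
      rw [hω, inv_pow, ← Units.val_pow_eq_pow_val, hξ, Units.val_one, inv_one]
    have hω1 : ω - 1 ≠ 0 := by
      intro h1
      apply hξ1 1 (by norm_num) (by norm_num)
      have h2 : ω = 1 := by linear_combination h1
      rw [pow_one, ← inv_inj, ← hω, h2, inv_one]
    have hs : ω + ω ^ 2 + ω ^ 3 + ω ^ 4 = -1 := by
      apply mul_left_cancel₀ hω1
      linear_combination hω5
    have s5 : ω ^ 3 + ω ^ 6 + ω ^ 9 + ω ^ 12 = -1 := by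
      linear_combination hs + (ω + ω ^ 4 + ω ^ 2 * (ω ^ 5 + 1)) * hω5
    have s3 : ω ^ 5 + ω ^ 10 = 2 := by
      linear_combination (ω ^ 5 + 2) * hω5
    have s1 : ω + ω ^ 2 + ω ^ 4 + ω ^ 7 + ω ^ 8 + ω ^ 11 + ω ^ 13 + ω ^ 14 = -2 := by
      linear_combination 2 * hs + (ω ^ 2 + ω ^ 3 + ω * (ω ^ 5 + 1) + ω ^ 3 * (ω ^ 5 + 1) +
        ω ^ 4 * (ω ^ 5 + 1)) * hω5
    linear_combination (θ w) * s1 + (θ x5) * s5 + (θ x3) * s3
  have e3 : ∑ k ∈ Finset.range 15, θ (φ' ⟨(k : ZMod 15), 1⟩) =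
      θ 1 + 8 * θ w + 4 * θ x5 + 2 * θ x3 := by
    have h6 := hsum θ hθ 1
    simp only [one_pow, mul_one, hwj] at h6
    rw [Finset.sum_range_succ']
    have h7 : ∑ k ∈ Finset.range 14, θ (φ' ⟨((k + 1 : ℕ) : ZMod 15), 1⟩) =
        ∑ k ∈ Finset.range (15 - 1), θ (w ^ (k + 1)) := by
      refine Finset.sum_congr rfl fun k _ => ?_
      rw [hwj', hww θ hθ]
    rw [h7, h6]
    have h8 : (⟨((0 : ℕ) : ZMod 15), 1⟩ : Af (chiN (ZMod 15))) = 1 := by
      rw [Nat.cast_zero]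
      rfl
    rw [h8, map_one]
    ring
  rw [e1, e2, e3, hyr θ hθ]
  push_cast
  ring

end

end Pool.Agent.H50.A5
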